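import Pool.Agent.Helper69.CKC.KOneCd
import Pool.Agent.Helper97.CKC.Defs
set_option autoImplicit false
open Complex MeasureTheory Metric Set
open scoped Real ComplexConjugate

/-!
# Project CKC: the direction `u = (1 + i τ) / (1 - i τ)` and the coordinates of the certificate
-/

namespace Pool.Agent.Helper99.CKC

open Pool.Agent.Helper52.EK Pool.Agent.Helper69.EK3
open Pool.Agent.Helper69.CKC (fu)

/-- the direction -/
noncomputable def ud (τ : ℝ) : ℂ := (1 + I * τ) / (1 - I * τ)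

/-- the coordinate `x` -/
noncomputable def xu (τ : ℝ) (X : ℂ) : ℂ := conj (ud τ) * (X - (1 + ud τ) / 2)

/-- the coordinate `w` as a function of `x`, `q` and the angle -/
noncomputable def wx (x q : ℂ) (s c : ℝ) : ℂ := e0 s c + (1 + e0 s c) * (2 * x + q)

section
variable (τ : ℝ)

theorem ne1 : (1 : ℂ) - I * τ ≠ 0 := by
  intro h
  have := congrArg Complex.re h
  simp at this

theorem ne2 : (1 : ℂ) + I * τ ≠ 0 := by
  intro h
  have := congrArg Complex.re h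
  simp at this

theorem conj_p : conj ((1 : ℂ) + I * τ) = 1 - I * τ := by
  simp [sub_eq_add_neg]

theorem conj_m : conj ((1 : ℂ) - I * τ) = 1 + I * τ := by
  simp

theorem conj_ud : conj (ud τ) = (1 - I * τ) / (1 + I * τ) := by
  unfold ud
  rw [map_div₀, conj_p, conj_m]

theorem ud_conj : ud τ * conj (ud τ) = 1 := by
  rw [conj_ud, ud]
  have h1 := ne1 τ
  have h2 := ne2 τ
  field_simp

theorem norm_ud : ‖ud τ‖ = 1 := by
  have h := ud_conj τ
  rw [Complex.mul_conj, Complex.normSq_eq_norm_sq] at h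
  have h2 : ‖ud τ‖ ^ 2 = 1 := by exact_mod_cast h
  nlinarith [norm_nonneg (ud τ)]

theorem one_add_ud : (1 + ud τ) / 2 = 1 / (1 - I * τ) := by
  have h1 := ne1 τ
  unfold ud
  field_simp
  ring

theorem one_add_conj : 1 + conj (ud τ) = 2 / (1 + I * τ) := by
  have h2 := ne2 τ
  rw [conj_ud]
  field_simp
  ring

variable (X : ℂ)

theorem X_eq : X = (1 + ud τ) / 2 + ud τ * xu τ X := by
  unfold xu
  rw [← mul_assoc, ud_conj]
  ring

theorem Xt_eq : (1 - I * τ) * X = 1 + (1 + I * τ) * xu τ X := by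
  have h1 := ne1 τ
  have h2 := ne2 τ
  unfold xu
  rw [one_add_ud, conj_ud]
  field_simp
  ring

theorem fu_eq : fu (ud τ) X = -(xu τ X).re := by
  unfold fu xu
  rw [← Complex.neg_re]
  congr 1
  ring

theorem norm_xu : ‖xu τ X‖ = ‖X - (1 + ud τ) / 2‖ := by
  unfold xu
  rw [norm_mul, RCLike.norm_conj, norm_ud, one_mul]

theorem area_eq : ‖X‖ ^ 2 - X.re = ‖xu τ X‖ ^ 2 + (xu τ X).re := by
  rw [Pool.Agent.Helper69.CKC.area_u (norm_ud τ) X, fu_eq, norm_xu]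
  ring

theorem sq_eq (t : ℂ) : X ^ 2 - (((1 + ud τ) / 2) ^ 2 + ud τ * t) =
    ud τ ^ 2 * (xu τ X ^ 2 + (1 + conj (ud τ)) * xu τ X - conj (ud τ) * t) := by
  have h := ud_conj τ
  have h1 := X_eq τ X
  generalize xu τ X = x at *
  generalize conj (ud τ) = v at *
  generalize ud τ = u at *
  rw [h1]
  linear_combination (-u * x + u * t) * h

variable (Y : ℂ) (s c : ℝ)

theorem w_eq : conj (ud τ) * (mX X Y s c + 1) - 1 =
    wx (xu τ X) (conj (ud τ) * (Y / X)) s c := by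
  have h := ud_conj τ
  unfold mX wx xu
  generalize Y / X = q
  generalize e0 s c = e
  generalize conj (ud τ) = v at *
  generalize ud τ = u at *
  linear_combination (1 + e) * h

theorem dA_eq (σ : ℝ) : conj (ud τ) * dA σ X Y s c = (1 + e0 s c) * (2 * (σ : ℂ) * xu τ X +
    (σ : ℂ) * (1 + conj (ud τ)) - conj (ud τ) + conj (ud τ) * (Y / X)) + 2 * conj (ud τ) := by
  have h := ud_conj τ
  unfold dA xu
  generalize Y / X = q
  generalize e0 s c = e
  generalize conj (ud τ) = v at *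
  generalize ud τ = u at *
  linear_combination (1 + e) * σ * h

end

/-- `A + i B`, the square root of `e₀` -/
theorem e0_sq (s c : ℝ) : e0 s c = ((s : ℂ) + I * c) ^ 2 := by
  unfold e0
  linear_combination (-(s:ℂ) ^ 2 - (c:ℂ) ^ 2) * I_sq

theorem one_add_e0 {s c : ℝ} (h : s ^ 2 + c ^ 2 = 1) :
    1 + e0 s c = 2 * s * ((s : ℂ) + I * c) := by
  have h1 : (s : ℂ) ^ 2 + (c : ℂ) ^ 2 = 1 := by exact_mod_cast h
  rw [e0_sq]
  linear_combination (c:ℂ) ^ 2 * I_sq - h1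

/-- the polynomial of the discs, `p = (s / 2) q` -/
noncomputable def dpol (τ σ : ℝ) (x q : ℂ) (s c : ℝ) : ℝ :=
  4 * (1 + τ ^ 2) - (1 + τ ^ 2) * ‖s * q + 2 * σ * s * x‖ ^ 2 -
    2 * ((s * q + 2 * σ * s * x) * (2 * σ * s * (1 + I * τ) + I * c * (1 + I * τ) ^ 2)).re -
    4 * s ^ 2 - c ^ 2 * (1 + τ ^ 2) + 4 * σ * τ * s * c

theorem norm_p_sq (τ : ℝ) : ‖(1 : ℂ) + I * τ‖ ^ 2 = 1 + τ ^ 2 := by
  rw [← Complex.normSq_eq_norm_sq, Complex.normSq_apply]
  simp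
  ring

theorem dpol_eq (τ : ℝ) {σ : ℝ} (hσ : σ ^ 2 = 1) (X Y : ℂ) {s c : ℝ} (h : s ^ 2 + c ^ 2 = 1) :
    dpol τ σ (xu τ X) (conj (ud τ) * (Y / X)) s c =
      (1 + τ ^ 2) / 4 * (16 - ‖dA σ X Y s c‖ ^ 2) := by
  have h1 : ‖dA σ X Y s c‖ = ‖conj (ud τ) * dA σ X Y s c‖ := by
    rw [norm_mul, RCLike.norm_conj, norm_ud, one_mul]
  rw [h1, dA_eq, one_add_e0 h]
  generalize xu τ X = x
  generalize conj (ud τ) * (Y / X) = q
  have n2 := ne2 τ
  have n1 := ne1 τ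
  have h0 : (s : ℂ) ^ 2 + (c : ℂ) ^ 2 = 1 := by exact_mod_cast h
  obtain ⟨K, hK⟩ : ∃ K : ℂ, K = 2 * σ * s - I * c * (1 - I * τ) := ⟨_, rfl⟩
  obtain ⟨Z, hZ⟩ : ∃ Z : ℂ, Z = s * q + 2 * σ * s * x := ⟨_, rfl⟩
  -- take out the unimodular factor
  have h2 : 2 * (s:ℂ) * ((s : ℂ) + I * c) * (2 * (σ : ℂ) * x + (σ : ℂ) * (1 + conj (ud τ)) -
      conj (ud τ) + q) + 2 * conj (ud τ) = 2 * (((s : ℂ) + I * c) * (Z + K / (1 + I * τ))) := by
    have h4 : K / (1 + I * τ) = σ * s * (1 + conj (ud τ)) - I * c * conj (ud τ) := by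
      rw [one_add_conj, conj_ud, hK]
      field_simp
    rw [h4, hZ]
    generalize conj (ud τ) = v
    have e : (s:ℂ) ^ 2 - I ^ 2 * (c:ℂ) ^ 2 = 1 := by rw [I_sq]; linear_combination h0
    linear_combination (-2 * v) * e
  have h3 : ‖(s : ℂ) + I * c‖ = 1 := by
    have h5 : ‖(s : ℂ) + I * c‖ ^ 2 = 1 := by
      rw [← Complex.normSq_eq_norm_sq, Complex.normSq_apply]
      simp
      linarith
    nlinarith [norm_nonneg ((s : ℂ) + I * c)]
  rw [h2, norm_mul, norm_mul, h3, one_mul]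
  have h6 : ‖(2:ℂ)‖ = 2 := by simp
  rw [h6]
  have h7 : ‖Z + K / (1 + I * τ)‖ ^ 2 = ‖Z‖ ^ 2 + ‖K / (1 + I * τ)‖ ^ 2 +
      2 * (Z * conj (K / (1 + I * τ))).re := by
    rw [← Complex.normSq_eq_norm_sq, ← Complex.normSq_eq_norm_sq, ← Complex.normSq_eq_norm_sq,
      Complex.normSq_add]
  have ht : (0:ℝ) < 1 + τ ^ 2 := by positivity
  have h8 : (1 + τ ^ 2) * ‖K / (1 + I * τ)‖ ^ 2 = 4 * s ^ 2 - 4 * σ * τ * s * c +
      c ^ 2 * (1 + τ ^ 2) := by
    rw [norm_div, div_pow, norm_p_sq, mul_div_cancel₀ _ ht.ne', ← Complex.normSq_eq_norm_sq, hK,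
      Complex.normSq_apply]
    simp
    linear_combination 4 * s ^ 2 * hσ
  have h9 : (1 + τ ^ 2) * (Z * conj (K / (1 + I * τ))).re =
      (Z * (2 * σ * s * (1 + I * τ) + I * c * (1 + I * τ) ^ 2)).re := by
    have h10 : (1 + I * τ) * (1 - I * τ) = (((1 + τ ^ 2 : ℝ)) : ℂ) := by
      push_cast
      linear_combination -(τ:ℂ) ^ 2 * I_sq
    rw [← Complex.re_ofReal_mul, ← h10]
    congr 1
    have h11 : conj K = 2 * σ * s + I * c * (1 + I * τ) := by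
      rw [hK]
      simp only [map_sub, map_mul, map_one, conj_ofReal, conj_I, map_ofNat]
      ring
    rw [map_div₀, conj_p, h11]
    field_simp
  unfold dpol
  rw [← hZ]
  have h12 : (1 + τ ^ 2) / 4 * (16 - (2 * ‖Z + K / (1 + I * τ)‖) ^ 2) =
      4 * (1 + τ ^ 2) - (1 + τ ^ 2) * ‖Z‖ ^ 2 - (1 + τ ^ 2) * ‖K / (1 + I * τ)‖ ^ 2 -
        2 * ((1 + τ ^ 2) * (Z * conj (K / (1 + I * τ))).re) := by
    rw [mul_pow, h7]
    ring
  rw [h12, h8, h9]
  ring

end Pool.Agent.Helper99.CKC
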