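import Pool.Agent.Helper69.EK7.Grp
set_option autoImplicit false
open Complex MeasureTheory Metric Set
open scoped Real ComplexConjugate

/-!
# Project CKC: rational functions `P(x) / D ^ j`, `D` a positive quadratic polynomial (general
position), given by integer lists
-/

namespace Pool.Agent.Helper99.CKC

open Pool.EK71 Pool.Agent.Helper52.EK Pool.Agent.Helper2.EK
open Pool.Agent.Helper69.EK3 hiding qX qY qL Rr c1_Rr c2_Rr Rr_le Dn Dn_ev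
open Pool.Agent.Helper71.EK3 (c1_sh ofNat_cast)
open Pool.Agent.Helper71.EKC (sb2 e_sb)

/-- `D = A x² + B x + C + E y² + F y + G x y`, `N D ≥ 1 + x² + y²` -/
structure DC where
  A : ℤ
  B : ℤ
  C : ℤ
  E : ℤ
  F : ℤ
  G : ℤ
  N : ℤ
  hN : 0 < N
  h1 : 1 < N * A
  h2 : 0 < 4 * (N * A - 1) * (N * E - 1) - (N * G) ^ 2
  h3 : (2 * (N * A - 1) * (N * F) - N * B * (N * G)) ^ 2 ≤
    (4 * (N * A - 1) * (N * E - 1) - (N * G) ^ 2) * (4 * (N * A - 1) * (N * C - 1) - (N * B) ^ 2)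

noncomputable def Dc (d : DC) (x y : ℝ) : ℝ :=
  d.A * x ^ 2 + d.B * x + d.C + d.E * y ^ 2 + d.F * y + d.G * (x * y)

theorem Dc_low (d : DC) (x y : ℝ) : 1 + (x ^ 2 + y ^ 2) ≤ d.N * Dc d x y := by
  have h1 : (1:ℝ) < d.N * d.A := by exact_mod_cast d.h1
  have h2 : (0:ℝ) < 4 * (d.N * d.A - 1) * (d.N * d.E - 1) - (d.N * d.G) ^ 2 := by
    exact_mod_cast d.h2
  have h3 : (2 * (d.N * d.A - 1) * (d.N * d.F) - d.N * d.B * (d.N * d.G) : ℝ) ^ 2 ≤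
      (4 * (d.N * d.A - 1) * (d.N * d.E - 1) - (d.N * d.G) ^ 2) *
      (4 * (d.N * d.A - 1) * (d.N * d.C - 1) - (d.N * d.B) ^ 2) := by
    exact_mod_cast d.h3
  unfold Dc
  generalize (d.N : ℝ) = N at *
  generalize (d.A : ℝ) = A at *
  generalize (d.B : ℝ) = B at *
  generalize (d.C : ℝ) = C at *
  generalize (d.E : ℝ) = E at *
  generalize (d.F : ℝ) = F at *
  generalize (d.G : ℝ) = G at *
  obtain ⟨a, ha⟩ : ∃ a, a = N * A - 1 := ⟨_, rfl⟩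
  obtain ⟨b, hb⟩ : ∃ b, b = N * B := ⟨_, rfl⟩
  obtain ⟨c, hc⟩ : ∃ c, c = N * C - 1 := ⟨_, rfl⟩
  obtain ⟨e, he⟩ : ∃ e, e = N * E - 1 := ⟨_, rfl⟩
  obtain ⟨f, hf⟩ : ∃ f, f = N * F := ⟨_, rfl⟩
  obtain ⟨g, hg⟩ : ∃ g, g = N * G := ⟨_, rfl⟩
  rw [← ha, ← he, ← hg] at h2
  rw [← ha, ← hb, ← hc, ← he, ← hf, ← hg] at h3
  have ha0 : 0 < a := by rw [ha]; linarith
  have key : 0 ≤ a * x ^ 2 + b * x + c + e * y ^ 2 + f * y + g * (x * y) := by
    obtain ⟨Q, hQ⟩ : ∃ Q, Q = a * x ^ 2 + b * x + c + e * y ^ 2 + f * y + g * (x * y) := ⟨_, rfl⟩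
    have e1 : 4 * a * (4 * a * e - g ^ 2) * Q = (4 * a * e - g ^ 2) * (2 * a * x + g * y + b) ^ 2 +
        (((4 * a * e - g ^ 2) * y + (2 * a * f - b * g)) ^ 2 + ((4 * a * e - g ^ 2) *
          (4 * a * c - b ^ 2) - (2 * a * f - b * g) ^ 2)) := by
      rw [hQ]
      ring
    have e2 : 0 ≤ 4 * a * (4 * a * e - g ^ 2) * Q := by
      rw [e1]
      have := mul_nonneg h2.le (sq_nonneg (2 * a * x + g * y + b))
      nlinarith [sq_nonneg ((4 * a * e - g ^ 2) * y + (2 * a * f - b * g))]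
    rw [← hQ]
    have e3 : 0 < 4 * a * (4 * a * e - g ^ 2) := by positivity
    exact nonneg_of_mul_nonneg_right e2 e3
  have e4 : N * (A * x ^ 2 + B * x + C + E * y ^ 2 + F * y + G * (x * y)) -
      (1 + (x ^ 2 + y ^ 2)) = a * x ^ 2 + b * x + c + e * y ^ 2 + f * y + g * (x * y) := by
    rw [ha, hb, hc, he, hf, hg]
    ring
  linarith

theorem Dc_pos (d : DC) (x y : ℝ) : 0 < Dc d x y := by
  have h1 := Dc_low d x y
  have hN : (0:ℝ) < d.N := by exact_mod_cast d.hN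
  have h2 : 0 < (d.N : ℝ) * Dc d x y := by nlinarith [sq_nonneg x, sq_nonneg y]
  exact (mul_pos_iff_of_pos_left hN).1 h2

/-- `D` as a polynomial in `(x, y)` -/
def DcL (d : DC) : BP := [[d.C, d.F, d.E], [d.B, d.G], [d.A]]

def DcX (d : DC) : BP := [[d.B, d.G], [Int.mul 2 d.A]]
def DcY (d : DC) : BP := [[d.F, Int.mul 2 d.E], [d.G]]

theorem e_Dc (x y : ℝ) (d : DC) : ev2 x y (DcL d) = Dc d x y := by
  simp only [ev2, ev1, DcL, Dc]
  ring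

theorem e_DcX (x y : ℝ) (d : DC) : ev2 x y (DcX d) = 2 * d.A * x + d.B + d.G * y := by
  simp only [ev2, ev1, DcX, imul_cast']
  push_cast
  ring

theorem e_DcY (x y : ℝ) (d : DC) : ev2 x y (DcY d) = 2 * d.E * y + d.F + d.G * x := by
  simp only [ev2, ev1, DcY, imul_cast']
  push_cast
  ring

/-- `c1` functions under translation -/
theorem c1_tr {W Wx Wy : ℂ → ℝ} (h : C1f W Wx Wy) (a : ℂ) :
    C1f (fun x => W (x + a)) (fun x => Wx (x + a)) (fun x => Wy (x + a)) := by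
  refine ⟨fun x => ?_, h.cx.comp (continuous_id.add continuous_const),
    h.cy.comp (continuous_id.add continuous_const)⟩
  have h1 : HasFDerivAt (fun x : ℂ => x + a) (ContinuousLinearMap.id ℝ ℂ) x :=
    (hasFDerivAt_id x).add_const a
  have h2 := (h.hd (x + a)).comp x h1
  rwa [ContinuousLinearMap.comp_id] at h2

/-- polynomials of `x` -/
theorem c1_ev (P : BP) : C1f (fun x : ℂ => ev2 x.re x.im P) (fun x => ev2 x.re x.im (dX P))
    (fun x => ev2 x.re x.im (dY P)) := by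
  refine c1_congr (c1_tr (c1_sh P) 1) (fun x => ?_) (fun x => ?_) (fun x => ?_) <;> simp

theorem c1_Dc (d : DC) : C1f (fun x => Dc d x.re x.im) (fun x => 2 * d.A * x.re + d.B + d.G * x.im)
    (fun x => 2 * d.E * x.im + d.F + d.G * x.re) := by
  refine c1_congr (c1_ev (DcL d)) (fun x => ?_) (fun x => ?_) (fun x => ?_)
  · rw [e_Dc]
  · simp [DcL, dX, dx1, sm1, ev2, ev1]
    ring
  · simp [DcL, dY, dyr, dy1, ev2, ev1]
    ring

/-- `A / D^k` -/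
theorem c1_divDc (d : DC) {A Ax Ay : ℂ → ℝ} (hA : C1f A Ax Ay) (k : ℕ) :
    C1f (fun x => A x / Dc d x.re x.im ^ k)
      (fun x => (Ax x * Dc d x.re x.im - k * (2 * d.A * x.re + d.B + d.G * x.im) * A x)
        / (Dc d x.re x.im ^ k * Dc d x.re x.im))
      (fun x => (Ay x * Dc d x.re x.im - k * (2 * d.E * x.im + d.F + d.G * x.re) * A x)
        / (Dc d x.re x.im ^ k * Dc d x.re x.im)) := by
  induction k with
  | zero =>
    refine c1_congr hA ?_ ?_ ?_ <;> intro x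
    · simp
    · have := (Dc_pos d x.re x.im).ne'
      field_simp
      simp
    · have := (Dc_pos d x.re x.im).ne'
      field_simp
      simp
  | succ k ih =>
    refine c1_congr (c1_mul ih (c1_inv (c1_Dc d) fun x => (Dc_pos d x.re x.im).ne')) ?_ ?_ ?_ <;>
      intro x <;> have := (Dc_pos d x.re x.im).ne' <;> push_cast <;> field_simp <;> ring

/-- numerators of the derivatives of `P / D ^ j` -/
def qcX (d : DC) (j : ℕ) (P : BP) : BP :=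
  sb2 (mu2 (DcL d) (dX P)) (sm2 (Int.ofNat j) (mu2 (DcX d) P))
def qcY (d : DC) (j : ℕ) (P : BP) : BP :=
  sb2 (mu2 (DcL d) (dY P)) (sm2 (Int.ofNat j) (mu2 (DcY d) P))

/-- `P / D ^ j` at `x` -/
noncomputable def Rc (d : DC) (j : ℕ) (P : BP) (x : ℂ) : ℝ :=
  ev2 x.re x.im P / Dc d x.re x.im ^ j

theorem qcX_ev (d : DC) (j : ℕ) (P : BP) (x y : ℝ) : ev2 x y (qcX d j P) =
    ev2 x y (dX P) * Dc d x y - j * (2 * d.A * x + d.B + d.G * y) * ev2 x y P := by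
  rw [qcX, e_sb, ev2_mu, ev2_sm, ev2_mu, e_Dc, e_DcX, ofNat_cast']
  ring

theorem qcY_ev (d : DC) (j : ℕ) (P : BP) (x y : ℝ) : ev2 x y (qcY d j P) =
    ev2 x y (dY P) * Dc d x y - j * (2 * d.E * y + d.F + d.G * x) * ev2 x y P := by
  rw [qcY, e_sb, ev2_mu, ev2_sm, ev2_mu, e_Dc, e_DcY, ofNat_cast']
  ring

theorem c1_Rc (d : DC) (j : ℕ) (P : BP) :
    C1f (Rc d j P) (Rc d (j + 1) (qcX d j P)) (Rc d (j + 1) (qcY d j P)) := by
  refine c1_congr (c1_divDc d (c1_ev P) j) (fun x => rfl) (fun x => ?_) (fun x => ?_)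
  · unfold Rc
    rw [qcX_ev, pow_succ]
  · unfold Rc
    rw [qcY_ev, pow_succ]

/-- growth -/
theorem Rc_gr (d : DC) (k m : ℕ) (M : BP) (h : dle (2 * k + 2 + m) M = true) :
    ∃ C : ℝ, 0 ≤ C ∧ ∀ (x : ℂ) (S : ℝ), 0 ≤ S → S ≤ 1 → S * ‖x‖ ≤ 10 →
      S ^ m * |Rc d k M x| ≤ C * (1 + ‖x‖ ^ 2) := by
  have hN : (0:ℝ) < d.N := by exact_mod_cast d.hN
  refine ⟨nr2 M * 11 ^ m * (d.N : ℝ) ^ k, mul_nonneg (mul_nonneg (nr2_nonneg M) (by positivity))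
    (by positivity), fun x S hS0 hS1 hSX => ?_⟩
  have e : ‖x‖ ^ 2 = x.re ^ 2 + x.im ^ 2 := by
    rw [← Complex.normSq_eq_norm_sq, Complex.normSq_apply]
    ring
  obtain ⟨T, hT⟩ : ∃ T, T = Real.sqrt (1 + ‖x‖ ^ 2) := ⟨_, rfl⟩
  have hT2 : T ^ 2 = 1 + ‖x‖ ^ 2 := by
    rw [hT]
    exact Real.sq_sqrt (by positivity)
  have hT0 : 0 ≤ T := by rw [hT]; exact Real.sqrt_nonneg _
  have hT1 : 1 ≤ T := by
    have : (1:ℝ) ^ 2 ≤ T ^ 2 := by rw [hT2]; nlinarith [sq_nonneg ‖x‖]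
    exact le_of_sq_le_sq this hT0
  have hT3 : T ≤ 1 + ‖x‖ := by
    refine le_of_sq_le_sq ?_ (by positivity)
    rw [hT2]
    nlinarith [norm_nonneg x]
  have hx : |x.re| ≤ T := by
    refine le_of_sq_le_sq ?_ hT0
    rw [sq_abs, hT2, e]
    nlinarith [sq_nonneg x.im]
  have hy : |x.im| ≤ T := by
    refine le_of_sq_le_sq ?_ hT0
    rw [sq_abs, hT2, e]
    nlinarith [sq_nonneg x.re]
  have h1 := ev2_le' hT1 hx hy _ M h
  have hD : 1 + ‖x‖ ^ 2 ≤ d.N * Dc d x.re x.im := by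
    rw [e]
    exact Dc_low d x.re x.im
  have hDp := Dc_pos d x.re x.im
  have hST : S * T ≤ 11 := by
    calc S * T ≤ S * (1 + ‖x‖) := mul_le_mul_of_nonneg_left hT3 hS0
      _ = S + S * ‖x‖ := by ring
      _ ≤ 11 := by linarith
  have hSTm : (S * T) ^ m ≤ 11 ^ m := pow_le_pow_left₀ (mul_nonneg hS0 hT0) hST m
  have hTD : T ^ (2 * k) ≤ (d.N : ℝ) ^ k * Dc d x.re x.im ^ k := by
    rw [pow_mul, hT2, ← mul_pow]
    exact pow_le_pow_left₀ (by positivity) hD k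
  have hn := nr2_nonneg M
  unfold Rc
  rw [abs_div, abs_of_pos (pow_pos hDp k), ← mul_div_assoc, div_le_iff₀ (pow_pos hDp k)]
  calc S ^ m * |ev2 x.re x.im M| ≤ S ^ m * (nr2 M * T ^ (2 * k + 2 + m)) :=
        mul_le_mul_of_nonneg_left h1 (pow_nonneg hS0 m)
    _ = nr2 M * (S * T) ^ m * T ^ (2 * k) * (1 + ‖x‖ ^ 2) := by
        rw [← hT2, mul_pow]
        ring
    _ ≤ nr2 M * 11 ^ m * ((d.N : ℝ) ^ k * Dc d x.re x.im ^ k) * (1 + ‖x‖ ^ 2) := by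
        gcongr
    _ = nr2 M * 11 ^ m * (d.N : ℝ) ^ k * (1 + ‖x‖ ^ 2) * Dc d x.re x.im ^ k := by ring

/-- the complex function of one potential -/
noncomputable def HD (d : DC) (k : ℕ) (M1 M2 : BP) (x : ℂ) : ℂ :=
  (Rc d k M1 x : ℂ) + I * (Rc d k M2 x : ℂ)

theorem HD_gr (d : DC) (k m : ℕ) (M1 M2 : BP) (h : dle (2 * k + 2 + m) M1 = true)
    (h' : dle (2 * k + 2 + m) M2 = true) :
    ∃ C : ℝ, 0 ≤ C ∧ ∀ (x : ℂ) (S : ℝ), 0 ≤ S → S ≤ 1 → S * ‖x‖ ≤ 10 →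
      S ^ m * ‖HD d k M1 M2 x‖ ≤ C * (1 + ‖x‖ ^ 2) := by
  obtain ⟨C₁, h1, k1⟩ := Rc_gr d k m M1 h
  obtain ⟨C₂, h2, k2⟩ := Rc_gr d k m M2 h'
  refine ⟨C₁ + C₂, add_nonneg h1 h2, fun x S a1 a2 a3 => ?_⟩
  have e : ‖HD d k M1 M2 x‖ ≤ |Rc d k M1 x| + |Rc d k M2 x| := by
    unfold HD
    refine (norm_add_le _ _).trans (add_le_add ?_ ?_)
    · rw [norm_real, Real.norm_eq_abs]
    · rw [norm_mul, norm_I, one_mul, norm_real, Real.norm_eq_abs]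
  have h3 := mul_le_mul_of_nonneg_left e (pow_nonneg a1 m)
  have h4 := k1 x S a1 a2 a3
  have h5 := k2 x S a1 a2 a3
  rw [mul_add] at h3
  rw [add_mul]
  linarith

end Pool.Agent.Helper99.CKC
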