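import Pool.Agent.Helper99.CKC.Coord
import Pool.Agent.Helper99.CKC.Den
import Pool.Agent.Helper69.CKC.PotC
import Pool.Agent.Helper69.CKC.HmC
set_option autoImplicit false
open Complex MeasureTheory Metric Set
open scoped Real ComplexConjugate

/-!
# Project CKC: the null Lagrangians of the certificate in the direction `u = ud τ`
-/

namespace Pool.Agent.Helper99.CKC

open Pool.Sos71 Pool.EK71
open Pool.Agent.Helper52.EK Pool.Agent.Helper69.EK3 Pool.Agent.Helper69.EK7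
open Pool.Agent.Helper69.CKC Pool.Agent.Helper84.CK

/-- equality on the strip suffices -/
theorem IsNullC.congrOn {P : (ℂ → ℂ) → ℝ → ℝ → Prop} {N N' : (ℂ → ℂ) → ℝ → ℝ → ℝ}
    (h : IsNullC P N)
    (hN : ∀ (X : ℂ → ℂ) (x₁ x₂ : ℝ), NiceX X x₁ x₂ → ∀ ξ ∈ Icc x₁ x₂, ∀ η ∈ Icc (0:ℝ) π,
      N' X ξ η = N X ξ η) : IsNullC P N' := by
  refine ⟨fun X x₁ x₂ hX => (h.cN X x₁ x₂ hX).congr fun p hp => hN X x₁ x₂ hX _ hp.1 _ hp.2, ?_⟩
  obtain ⟨C, hC⟩ := h.le
  refine ⟨C, fun X x₁ x₂ V Ω Ω₁ Ω₂ hx hw hX hP => ?_⟩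
  have h1 := hC X x₁ x₂ V Ω Ω₁ Ω₂ hx hw hX hP
  have e : IH x₁ x₂ π (fun ξ η => Ω ξ η * N' X ξ η) =
      IH x₁ x₂ π (fun ξ η => Ω ξ η * N X ξ η) := by
    unfold IH
    refine intervalIntegral.integral_congr fun ξ hξ => ?_
    rw [uIcc_of_le hx] at hξ
    refine intervalIntegral.integral_congr fun η hη => ?_
    rw [uIcc_of_le Real.pi_pos.le] at hη
    simp only
    rw [hN X x₁ x₂ hX ξ hξ η hη]
  rwa [e]

/-! ### complex functions of class `C¹` -/

/-- a complex function of class `C¹` in the plane, with its partial derivatives -/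
structure C1x (H H1 H2 : ℂ → ℂ) : Prop where
  hd : ∀ x : ℂ, HasFDerivAt H (reCLM.smulRight (H1 x) + imCLM.smulRight (H2 x)) x
  cx : Continuous H1
  cy : Continuous H2

/-- composition with an affine map -/
theorem C1x.affine {H H1 H2 : ℂ → ℂ} (h : C1x H H1 H2) (c b m : ℂ) :
    C1c (fun X => c * H (b * (X - m)))
      (fun X => c * (H1 (b * (X - m)) * (b.re : ℂ) + H2 (b * (X - m)) * (b.im : ℂ)))
      (fun X => c * (H2 (b * (X - m)) * (b.re : ℂ) - H1 (b * (X - m)) * (b.im : ℂ))) := by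
  have ca : Continuous fun X : ℂ => b * (X - m) := by fun_prop
  have c1 := h.cx.comp ca
  have c2 := h.cy.comp ca
  refine ⟨fun X _ => ?_, ?_, ?_⟩
  · have h0 : HasFDerivAt (fun X : ℂ => b * (X - m)) (b • ContinuousLinearMap.id ℝ ℂ) X :=
      ((hasFDerivAt_id X).sub_const m).const_mul b
    have h1 := ((h.hd (b * (X - m))).comp X h0).const_mul c
    refine h1.congr_fderiv ?_
    ext v
    simp only [_root_.add_apply, ContinuousLinearMap.smulRight_apply, reCLM_apply, imCLM_apply,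
      _root_.smul_apply, ContinuousLinearMap.comp_apply,
      ContinuousLinearMap.id_apply, smul_eq_mul, real_smul, mul_re, mul_im, ofReal_sub,
      ofReal_add, ofReal_mul]
    ring
  · exact (continuous_const.mul ((c1.mul continuous_const).add
      (c2.mul continuous_const))).continuousOn
  · exact (continuous_const.mul ((c2.mul continuous_const).sub
      (c1.mul continuous_const))).continuousOn

theorem c1x_HD (d : DC) (k : ℕ) (M1 M2 : BP) : C1x (HD d k M1 M2)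
    (HD d (k + 1) (qcX d k M1) (qcX d k M2)) (HD d (k + 1) (qcY d k M1) (qcY d k M2)) := by
  have h1 := c1_Rc d k M1
  have h2 := c1_Rc d k M2
  have r1 := Complex.continuous_ofReal.comp h1.cx
  have r2 := Complex.continuous_ofReal.comp h2.cx
  have r3 := Complex.continuous_ofReal.comp h1.cy
  have r4 := Complex.continuous_ofReal.comp h2.cy
  refine ⟨fun x => ?_, r1.add (continuous_const.mul r2), r3.add (continuous_const.mul r4)⟩
  have k1 := ofRealCLM.hasFDerivAt.comp x (h1.hd x)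
  have k2 := (ofRealCLM.hasFDerivAt.comp x (h2.hd x)).const_mul I
  refine (k1.add k2).congr_fderiv ?_
  ext v
  simp [HD]
  ring

/-! ### one potential -/

/-- the integrand of the potential `a(η) (1 + i τ) H(x) q^j` -/
noncomputable def NP (τ : ℝ) (j : ℕ) (a a₁ : ℝ) (H H1 H2 : ℂ) (x q : ℂ) : ℝ :=
  (q ^ j * (I * (1 + I * τ) * a₁ * H + a * (H1 + I * H2) * conj (q * (1 + (1 + I * τ) * x)))).re

theorem one_sub_alpha (τ : ℝ) : ‖(1 : ℂ) - (1 + ud τ) / 2‖ ≤ 1 := by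
  have e : (1 : ℂ) - (1 + ud τ) / 2 = (1 - ud τ) / 2 := by ring
  have h := norm_sub_le 1 (ud τ)
  rw [norm_one, norm_ud] at h
  rw [e, norm_div]
  have h2 : ‖(2:ℂ)‖ = 2 := by simp
  rw [h2]
  linarith

theorem norm_alpha (τ : ℝ) : ‖(1 + ud τ) / 2‖ ≤ 1 := by
  have h := norm_add_le 1 (ud τ)
  rw [norm_one, norm_ud] at h
  rw [norm_div]
  have h2 : ‖(2:ℂ)‖ = 2 := by simp
  rw [h2]
  linarith

/-- the bounds of the class -/
theorem discF_bd {X : ℂ → ℂ} {x₁ x₂ : ℝ} (hP : DiscF X x₁ x₂) {ξ η : ℝ} (hξ : ξ ∈ Icc x₁ x₂)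
    (hη : η ∈ Icc (0:ℝ) π) (τ : ℝ) :
    Real.sin η * ‖xu τ (X (pt ξ η))‖ ≤ 10 ∧
      Real.sin η * ‖conj (ud τ) * (deriv X (pt ξ η) / X (pt ξ η))‖ ≤ 38 ∧
      ‖xu τ (X (pt ξ η))‖ ≤ ‖X (pt ξ η) - 1‖ + 1 := by
  have q9 := hP.X_le ξ hξ η hη
  have q38 := hP.q_le ξ hξ η hη
  have hs := sin_nn' hη
  have hs1 := Real.sin_le_one η
  have h1 := norm_alpha τ
  have h2 := one_sub_alpha τ
  refine ⟨?_, ?_, ?_⟩
  · rw [norm_xu]
    have h3 := norm_sub_le (X (pt ξ η)) ((1 + ud τ) / 2)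
    calc Real.sin η * ‖X (pt ξ η) - (1 + ud τ) / 2‖ ≤ Real.sin η * (‖X (pt ξ η)‖ + 1) :=
          mul_le_mul_of_nonneg_left (by linarith) hs
      _ = Real.sin η * ‖X (pt ξ η)‖ + Real.sin η := by ring
      _ ≤ 10 := by linarith
  · rw [norm_mul, RCLike.norm_conj, norm_ud, one_mul]
    exact q38
  · rw [norm_xu]
    have e : X (pt ξ η) - (1 + ud τ) / 2 = (X (pt ξ η) - 1) + (1 - (1 + ud τ) / 2) := by ring
    rw [e]
    exact (norm_add_le _ _).trans (by linarith)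

/-- **the null Lagrangian of a potential** -/
theorem isNull_P {H H1 H2 : ℂ → ℂ} (hH : C1x H H1 H2) (τ : ℝ) (j : ℕ) {a a₁ : ℝ → ℝ}
    (g1 : ∀ η, HasDerivAt a (a₁ η) η) (g1c : Continuous a₁) (f1 : a 0 = 0) (f2 : a π = 0) {C : ℝ}
    (hC : ∀ (x q : ℂ) (η : ℝ), η ∈ Icc (0:ℝ) π → Real.sin η * ‖x‖ ≤ 10 →
      Real.sin η * ‖q‖ ≤ 38 → |a η| * ‖H x‖ * ‖q‖ ^ j ≤ C * Real.sin η * (1 + ‖x‖ ^ 2)) :
    IsNullC DiscF (fun X ξ η => NP τ j (a η) (a₁ η) (H (xu τ (X (pt ξ η))))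
      (H1 (xu τ (X (pt ξ η)))) (H2 (xu τ (X (pt ξ η)))) (xu τ (X (pt ξ η)))
      (conj (ud τ) * (deriv X (pt ξ η) / X (pt ξ η)))) := by
  have n1 := ne1 τ
  have n2 := ne2 τ
  have hu := ud_conj τ
  refine IsNullC.congrOn (isNullC_A (P := DiscF)
    (hH.affine ((1 + I * τ) * conj (ud τ) ^ j) (conj (ud τ)) ((1 + ud τ) / 2))
    (anS_f j 0) anS_one g1 g1c f1 f2 (C := ‖(1:ℂ) + I * τ‖ * |C| * 3) ?_) ?_
  · intro X x₁ x₂ hx hX hP ξ hξ η hη
    obtain ⟨b1, b2, b3⟩ := discF_bd hP hξ hη τ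
    have h1 := hC _ _ η hη b1 b2
    have hs := sin_nn' hη
    unfold FA fG
    rw [norm_mul, norm_mul, norm_mul, norm_mul, norm_mul, norm_mul, norm_real, RCLike.norm_conj,
      norm_one, norm_pow, norm_pow, norm_pow, RCLike.norm_conj, norm_ud, one_pow, pow_zero,
      Real.norm_eq_abs]
    have e1 : H (conj (ud τ) * (X (pt ξ η) - (1 + ud τ) / 2)) = H (xu τ (X (pt ξ η))) := rfl
    have e2 : ‖qF X (pt ξ η)‖ = ‖conj (ud τ) * (deriv X (pt ξ η) / X (pt ξ η))‖ := by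
      rw [norm_mul, RCLike.norm_conj, norm_ud, one_mul]
      rfl
    rw [e1, e2]
    generalize ‖conj (ud τ) * (deriv X (pt ξ η) / X (pt ξ η))‖ = Q at *
    generalize hx' : xu τ (X (pt ξ η)) = x at *
    have hx3 : 1 + ‖x‖ ^ 2 ≤ 3 * (1 + ‖X (pt ξ η) - 1‖ ^ 2) := by
      have h4 : ‖x‖ ^ 2 ≤ (‖X (pt ξ η) - 1‖ + 1) ^ 2 :=
        pow_le_pow_left₀ (norm_nonneg x) b3 2
      nlinarith [sq_nonneg (‖X (pt ξ η) - 1‖ - 1)]
    have h5 : |a η| * ‖H x‖ * Q ^ j ≤ |C| * Real.sin η * (3 * (1 + ‖X (pt ξ η) - 1‖ ^ 2)) := by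
      refine h1.trans ?_
      have h6 : C * Real.sin η ≤ |C| * Real.sin η :=
        mul_le_mul_of_nonneg_right (le_abs_self C) hs
      exact (mul_le_mul_of_nonneg_right h6 (by positivity)).trans
        (mul_le_mul_of_nonneg_left hx3 (by positivity))
    calc |a η| * (‖(1:ℂ) + I * τ‖ * 1 * ‖H x‖) * (Q ^ j * 1) * 1 =
        ‖(1:ℂ) + I * τ‖ * (|a η| * ‖H x‖ * Q ^ j) := by ring
      _ ≤ ‖(1:ℂ) + I * τ‖ * (|C| * Real.sin η * (3 * (1 + ‖X (pt ξ η) - 1‖ ^ 2))) :=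
        mul_le_mul_of_nonneg_left h5 (norm_nonneg _)
      _ = ‖(1:ℂ) + I * τ‖ * |C| * 3 * Real.sin η * (1 + ‖X (pt ξ η) - 1‖ ^ 2) := by ring
  · intro X x₁ x₂ hX ξ hξ η hη
    have hne := hX.ne _ (pt_mem hξ hη)
    have hd : deriv (fun _ : ℂ => (1:ℂ)) (pt ξ η) = 0 := by simp
    unfold NP NF fG qF
    have e1 : (conj (ud τ) * (X (pt ξ η) - (1 + ud τ) / 2)) = xu τ (X (pt ξ η)) := rfl
    dsimp only
    rw [hd, e1]
    congr 1
    have e0 := Xt_eq τ (X (pt ξ η))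
    generalize hY : deriv X (pt ξ η) = Y
    generalize hX0 : X (pt ξ η) = X0 at *
    generalize xu τ X0 = x at *
    generalize H x = h0
    generalize H1 x = h1
    generalize H2 x = h2
    -- the conjugate of the velocity
    have e2 : conj (conj (ud τ) * (Y / X0) * (1 + (1 + I * τ) * x)) =
        (1 + I * τ) * (ud τ * conj Y) := by
      rw [← e0, map_mul, map_mul, map_mul, conj_m, Complex.conj_conj, map_div₀]
      have h3 : conj X0 ≠ 0 := by
        intro h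
        exact hne ((map_eq_zero _).1 h)
      field_simp
    have e3 : ((conj (ud τ)).re : ℂ) = (ud τ).re := by rw [conj_re]
    have e4 : ((conj (ud τ)).im : ℂ) = -(ud τ).im := by rw [conj_im]; push_cast; ring
    have e5 : ud τ = (ud τ).re + (ud τ).im * I := (re_add_im (ud τ)).symm
    rw [e2, e3, e4, mul_pow]
    generalize conj (ud τ) ^ j = V
    generalize (Y / X0) ^ j = W
    generalize ha1 : ((a₁ η : ℝ) : ℂ) = α₁
    generalize ha : ((a η : ℝ) : ℂ) = α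
    generalize conj Y = Yc
    have e6 : h1 * ((ud τ).re : ℂ) + h2 * -((ud τ).im : ℂ) +
        I * (h2 * ((ud τ).re : ℂ) - h1 * -((ud τ).im : ℂ)) = (h1 + I * h2) * ud τ := by
      conv_rhs => rw [e5]
      linear_combination (-h2 * ((ud τ).im : ℂ)) * I_sq
    have e7 : (1 + I * (τ:ℂ)) * V * (h1 * ((ud τ).re : ℂ) + h2 * -((ud τ).im : ℂ)) +
        I * ((1 + I * (τ:ℂ)) * V * (h2 * ((ud τ).re : ℂ) - h1 * -((ud τ).im : ℂ))) =
        (1 + I * (τ:ℂ)) * V * ((h1 + I * h2) * ud τ) := by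
      rw [← e6]
      ring
    rw [e7]
    simp only [map_one, map_zero, pow_zero]
    ring

/-! ### functions of `x`, `q` and the angle -/

/-- the function `N` of `x`, `q`, `η` is a null Lagrangian in the direction `ud τ` -/
def NullX (τ : ℝ) (N : ℂ → ℂ → ℝ → ℝ) : Prop :=
  IsNullC DiscF (fun X ξ η => N (xu τ (X (pt ξ η)))
    (conj (ud τ) * (deriv X (pt ξ η) / X (pt ξ η))) η)

section
variable {τ : ℝ} {N N' : ℂ → ℂ → ℝ → ℝ}

theorem NullX.add (h : NullX τ N) (h' : NullX τ N') :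
    NullX τ (fun x q η => N x q η + N' x q η) := IsNullC.add h h'

theorem NullX.const_mul (h : NullX τ N) (c : ℝ) : NullX τ (fun x q η => c * N x q η) :=
  IsNullC.const_mul h c

theorem NullX.zero : NullX τ (fun _ _ _ => 0) := IsNullC.zero

theorem NullX.list {ι : Type} (L : List ι) {F : ι → ℂ → ℂ → ℝ → ℝ}
    (h : ∀ i ∈ L, NullX τ (F i)) : NullX τ (fun x q η => (L.map fun i => F i x q η).sum) :=
  IsNullC.list (N := fun i X ξ η => F i (xu τ (X (pt ξ η)))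
    (conj (ud τ) * (deriv X (pt ξ η) / X (pt ξ η))) η) L h

theorem NullX.congr (h : NullX τ N) (hN : ∀ x q η, N' x q η = N x q η) : NullX τ N' := by
  have e : N' = N := by
    funext x q η
    exact hN x q η
  rwa [e]

end

/-- the harmonic terms -/
theorem nullX_Hm (τ : ℝ) (c : ℂ) {n : ℕ} (hn : n ≤ 2) {β : ℝ → ℝ} (hβ : Continuous β)
    (hβ0 : ∫ η in (0:ℝ)..π, β η = 0) : NullX τ (fun x _ η => β η * (c * x ^ n).re) := by
  unfold NullX
  refine IsNullC.congr (isNullC_Hm (P := DiscF) (c * conj (ud τ) ^ n) ((1 + ud τ) / 2) hn hβ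
    hβ0) fun X ξ η => ?_
  unfold xu
  dsimp only
  rw [mul_pow, mul_assoc]

/-! ### the potentials given by integer lists -/

/-- the angular factor `2 (S C)^(w+1) g` -/
noncomputable def aC (w : ℕ) (g : AP) (η : ℝ) : ℝ := 2 * af (ash (w + 1) (w + 1) g) η

/-- its derivative -/
noncomputable def aC1 (w : ℕ) (g : AP) (η : ℝ) : ℝ := af (ader (ash (w + 1) (w + 1) g)) η

theorem hd_aC (w : ℕ) (g : AP) (η : ℝ) : HasDerivAt (aC w g) (aC1 w g η) η := by
  refine ((af_hasDerivAt (ash (w + 1) (w + 1) g) η).const_mul 2).congr_deriv ?_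
  unfold aC1
  ring

theorem aC_eq (w : ℕ) (g : AP) (η : ℝ) :
    aC w g η = 2 * (Real.sin (η / 2) * Real.cos (η / 2)) ^ (w + 1) * af g η := by
  unfold aC af
  rw [aev_ash, mul_pow]
  ring

theorem two_sc (η : ℝ) : 2 * (Real.sin (η / 2) * Real.cos (η / 2)) = Real.sin η := by
  have h := Real.sin_two_mul (η / 2)
  rw [mul_div_cancel₀ η two_ne_zero] at h
  rw [h]
  ring

theorem aC_zero (w : ℕ) (g : AP) : aC w g 0 = 0 := by
  rw [aC_eq]
  simp

theorem aC_pi (w : ℕ) (g : AP) : aC w g π = 0 := by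
  rw [aC_eq, Real.cos_pi_div_two]
  simp

/-- the growth condition of one potential -/
def okC (k : ℕ) (t : AP × BP × BP) : Bool :=
  t.1.all fun s => dle (2 * k + 2 + min s.2.1 s.2.2) t.2.1 &&
    dle (2 * k + 2 + min s.2.1 s.2.2) t.2.2

theorem half_bd {η : ℝ} (hη : η ∈ Icc (0:ℝ) π) :
    0 ≤ Real.sin (η / 2) ∧ Real.sin (η / 2) ≤ 1 ∧ 0 ≤ Real.cos (η / 2) ∧
      Real.cos (η / 2) ≤ 1 := by
  have hp := Real.pi_pos
  exact ⟨Real.sin_nonneg_of_nonneg_of_le_pi (by linarith [hη.1]) (by linarith [hη.2]),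
    Real.sin_le_one _, Real.cos_nonneg_of_neg_pi_div_two_le_of_le
    (by linarith [hη.1]) (by linarith [hη.2]), Real.cos_le_one _⟩

theorem pow_min_le {S C : ℝ} (hS : 0 ≤ S) (hS1 : S ≤ 1) (hC : 0 ≤ C) (hC1 : C ≤ 1) (i j : ℕ) :
    S ^ i * C ^ j ≤ (S * C) ^ (min i j) := by
  rw [mul_pow]
  exact mul_le_mul (pow_le_pow_of_le_one hS hS1 (min_le_left i j))
    (pow_le_pow_of_le_one hC hC1 (min_le_right i j)) (pow_nonneg hC j) (pow_nonneg hS _)

theorem HD_grg (d : DC) (k : ℕ) (M1 M2 : BP) (g : AP) (h : okC k (g, M1, M2) = true) :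
    ∃ C : ℝ, 0 ≤ C ∧ ∀ (x : ℂ) (η : ℝ), η ∈ Icc (0:ℝ) π → Real.sin η * ‖x‖ ≤ 10 →
      |af g η| * ‖HD d k M1 M2 x‖ ≤ C * (1 + ‖x‖ ^ 2) := by
  induction g with
  | nil =>
    refine ⟨0, le_rfl, fun x η hη _ => ?_⟩
    simp [af, aev]
  | cons t g ih =>
    obtain ⟨c, i, j⟩ := t
    simp only [okC, List.all_cons, Bool.and_eq_true] at h
    obtain ⟨⟨a1, a2⟩, a3⟩ := h
    obtain ⟨C₁, h1, k1⟩ := ih (by simpa only [okC] using a3)
    obtain ⟨C₂, h2, k2⟩ := HD_gr d k (min i j) M1 M2 a1 a2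
    refine ⟨|(c : ℝ)| * C₂ + C₁, by positivity, fun x η hη hX => ?_⟩
    obtain ⟨s0, s1, c0, c1⟩ := half_bd hη
    have k3 := k1 x η hη hX
    have e2 := two_sc η
    have hsc0 : 0 ≤ Real.sin (η / 2) * Real.cos (η / 2) := mul_nonneg s0 c0
    have k4 := k2 x (Real.sin (η / 2) * Real.cos (η / 2)) hsc0
      (mul_le_one₀ s1 c0 c1) (by
        have h5 : 2 * (Real.sin (η / 2) * Real.cos (η / 2)) * ‖x‖ ≤ 10 := by rw [e2]; exact hX
        nlinarith [mul_nonneg hsc0 (norm_nonneg x)])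
    have hn := norm_nonneg (HD d k M1 M2 x)
    have e1 : |af ((c, i, j) :: g) η| ≤
        |(c : ℝ)| * (Real.sin (η / 2) * Real.cos (η / 2)) ^ (min i j) + |af g η| := by
      unfold af
      rw [aev]
      refine (abs_add_le _ _).trans (add_le_add ?_ le_rfl)
      rw [abs_mul, abs_of_nonneg (mul_nonneg (pow_nonneg s0 i) (pow_nonneg c0 j))]
      exact mul_le_mul_of_nonneg_left (pow_min_le s0 s1 c0 c1 i j) (abs_nonneg _)
    have h3 := mul_le_mul_of_nonneg_right e1 hn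
    refine h3.trans ?_
    rw [add_mul, add_mul, mul_assoc, mul_assoc]
    exact add_le_add (mul_le_mul_of_nonneg_left k4 (abs_nonneg _)) k3

/-- the integrand of one potential -/
noncomputable def NPot (d : DC) (τ : ℝ) (j k : ℕ) (t : AP × BP × BP) (x q : ℂ) (η : ℝ) : ℝ :=
  NP τ j (aC j t.1 η) (aC1 j t.1 η) (HD d k t.2.1 t.2.2 x)
    (HD d (k + 1) (qcX d k t.2.1) (qcX d k t.2.2) x)
    (HD d (k + 1) (qcY d k t.2.1) (qcY d k t.2.2) x) x q

theorem nullX_Pot (d : DC) (τ : ℝ) (j k : ℕ) (t : AP × BP × BP) (h : okC k t = true) :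
    NullX τ (NPot d τ j k t) := by
  obtain ⟨g, M1, M2⟩ := t
  obtain ⟨C, hC0, hC⟩ := HD_grg d k M1 M2 g h
  refine isNull_P (c1x_HD d k M1 M2) τ j (hd_aC j g) (af_cont _) (aC_zero j g) (aC_pi j g)
    (C := 38 ^ j * C) ?_
  intro x q η hη hx hq
  obtain ⟨s0, s1, c0, c1⟩ := half_bd hη
  have k1 := hC x η hη hx
  have e2 := two_sc η
  have hsc0 : 0 ≤ Real.sin (η / 2) * Real.cos (η / 2) := mul_nonneg s0 c0
  have hs := sin_nn' hη
  have hq2 : Real.sin (η / 2) * Real.cos (η / 2) * ‖q‖ ≤ 38 := by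
    have h5 : 2 * (Real.sin (η / 2) * Real.cos (η / 2)) * ‖q‖ ≤ 38 := by rw [e2]; exact hq
    nlinarith [mul_nonneg hsc0 (norm_nonneg q)]
  have hq3 : (Real.sin (η / 2) * Real.cos (η / 2) * ‖q‖) ^ j ≤ 38 ^ j :=
    pow_le_pow_left₀ (mul_nonneg hsc0 (norm_nonneg q)) hq2 j
  rw [aC_eq, abs_mul, abs_of_nonneg (by positivity :
    (0:ℝ) ≤ 2 * (Real.sin (η / 2) * Real.cos (η / 2)) ^ (j + 1))]
  have e3 : 2 * (Real.sin (η / 2) * Real.cos (η / 2)) ^ (j + 1) * |af g η| *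
      ‖HD d k M1 M2 x‖ * ‖q‖ ^ j = Real.sin η *
      ((Real.sin (η / 2) * Real.cos (η / 2) * ‖q‖) ^ j * (|af g η| * ‖HD d k M1 M2 x‖)) := by
    rw [← e2, mul_pow _ ‖q‖, pow_succ]
    ring
  rw [e3]
  have h7 : 0 ≤ |af g η| * ‖HD d k M1 M2 x‖ := by positivity
  calc Real.sin η * ((Real.sin (η / 2) * Real.cos (η / 2) * ‖q‖) ^ j *
        (|af g η| * ‖HD d k M1 M2 x‖)) ≤ Real.sin η * (38 ^ j * (C * (1 + ‖x‖ ^ 2))) :=
      mul_le_mul_of_nonneg_left (mul_le_mul hq3 k1 h7 (by positivity)) hs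
    _ = 38 ^ j * C * Real.sin η * (1 + ‖x‖ ^ 2) := by ring

/-- groups of potentials with the same `j`, `k` -/
structure GrC where
  j : ℕ
  k : ℕ
  l : List (AP × BP × BP)

noncomputable def NGr (d : DC) (τ : ℝ) (G : GrC) (x q : ℂ) (η : ℝ) : ℝ :=
  (G.l.map fun t => NPot d τ G.j G.k t x q η).sum

noncomputable def NGs (d : DC) (τ : ℝ) (L : List GrC) (x q : ℂ) (η : ℝ) : ℝ :=
  (L.map fun G => NGr d τ G x q η).sum

def okGs (L : List GrC) : Bool := L.all fun G => G.l.all (okC G.k)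

theorem nullX_Gs (d : DC) (τ : ℝ) (L : List GrC) (h : okGs L = true) : NullX τ (NGs d τ L) := by
  simp only [okGs, List.all_eq_true] at h
  exact NullX.list L fun G hG => NullX.list G.l fun t ht => nullX_Pot d τ G.j G.k t (h G hG t ht)

/-! ### the harmonic terms given by integer lists -/

/-- the value at `S = 1`, `C = 0` -/
def a10 : AP → ℤ
  | [] => 0
  | (c, _, j) :: g => Int.add (if Nat.beq j 0 then c else 0) (a10 g)

/-- the value at `S = 0`, `C = 1` -/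
def a01 : AP → ℤ
  | [] => 0
  | (c, i, _) :: g => Int.add (if Nat.beq i 0 then c else 0) (a01 g)

theorem a10_ev (g : AP) : aev 1 0 g = a10 g := by
  induction g with
  | nil => simp [aev, a10]
  | cons t g ih =>
    obtain ⟨c, i, j⟩ := t
    cases j with
    | zero => simp [aev, a10, ih]
    | succ j => simp [aev, a10, ih]

theorem a01_ev (g : AP) : aev 0 1 g = a01 g := by
  induction g with
  | nil => simp [aev, a01]
  | cons t g ih =>
    obtain ⟨c, i, j⟩ := t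
    cases i with
    | zero => simp [aev, a01, ih]
    | succ i => simp [aev, a01, ih]

/-- derivatives of angular polynomials with equal values at the ends have mean zero -/
theorem int_ader (P : AP) (h : a10 P = a01 P) : ∫ η in (0:ℝ)..π, af (ader P) η = 0 := by
  have h1 := intervalIntegral.integral_eq_sub_of_hasDerivAt
    (f := fun η => 2 * af P η) (f' := fun η => af (ader P) η) (a := 0) (b := π)
    (fun η _ => ((af_hasDerivAt P η).const_mul 2).congr_deriv (by ring))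
    ((af_cont _).intervalIntegrable _ _)
  rw [h1]
  unfold af
  rw [Real.sin_pi_div_two, Real.cos_pi_div_two, zero_div, Real.sin_zero, Real.cos_zero, a10_ev,
    a01_ev, h, sub_self]

/-- a harmonic term: `(P, n, cR, cI)` is `β(η) Re ((cR + i cI) x^n)`, `β = af (ader P)` -/
structure HmC where
  P : AP
  n : ℕ
  cR : ℤ
  cI : ℤ

def HmC.ok (t : HmC) : Bool := Nat.ble t.n 2 && decide (a10 t.P = a01 t.P)

noncomputable def NHm (t : HmC) (x : ℂ) (η : ℝ) : ℝ :=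
  af (ader t.P) η * ((((t.cR : ℝ) : ℂ) + I * ((t.cI : ℝ) : ℂ)) * x ^ t.n).re

noncomputable def NHms (L : List HmC) (x _q : ℂ) (η : ℝ) : ℝ := (L.map fun t => NHm t x η).sum

theorem nullX_Hms (τ : ℝ) (L : List HmC) (h : L.all HmC.ok = true) : NullX τ (NHms L) := by
  simp only [List.all_eq_true] at h
  refine NullX.list L fun t ht => ?_
  have h1 := h t ht
  simp only [HmC.ok, Bool.and_eq_true, decide_eq_true_eq, Nat.ble_eq] at h1
  exact nullX_Hm τ _ h1.1 (af_cont _) (int_ader t.P h1.2)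

end Pool.Agent.Helper99.CKC
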