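import Pool.Agent.Helper99.CKC.Null
import Pool.Agent.Helper69.CKC.Plug
import Pool.Agent.Helper82.CKC.FieldU2
import Pool.Agent.Helper11.CKC.MDataC
set_option autoImplicit false
open Complex MeasureTheory Metric Set
open scoped Real ComplexConjugate

/-!
# Project CKC: from the inequality in the coordinates `x`, `q` of the direction `u = ud τ` to the
integral means
-/

namespace Pool.Agent.Helper99.CKC

open Pool.Agent.Helper52.EK Pool.Agent.Helper69.EK3 Pool.Agent.Helper69.EK7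
open Pool.Agent.Helper69.CKC Pool.Agent.Helper69.CK
open Pool.Agent.Helper82.CKC (GC FldC fldC_GC glip_GC wu wu_mX)
open Pool.Agent.Helper20.EK7 (InL OutD)
open Pool.Agent.Helper11.CKC (CL Mqc MuT uT)

theorem uT_eq (τ : ℝ) : uT τ = ud τ := by
  unfold uT ud
  rw [mul_comm (τ : ℂ) I]

/-- the inequality of the certificate at one point, `T` the field term, `Mv` the value of the
multiplier -/
def PtI (τ k₂ lam dl tt B T : ℝ) (Mv : ℂ) (N : ℂ → ℂ → ℝ → ℝ) (x q : ℂ) (η : ℝ) : Prop :=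
  ∃ l₀ l₁ l₂ : ℝ, 0 ≤ l₀ ∧ l₀ ≤ B * (1 + ‖x‖ ^ 2) ∧ 0 ≤ l₁ ∧ l₁ ≤ B * (1 + ‖x‖ ^ 2) ∧
    0 ≤ l₂ ∧ l₂ ≤ B * (1 + ‖x‖ ^ 2) ∧
    T + l₀ * (1 + τ ^ 2 - (Real.sin η * ‖1 + (1 + I * τ) * x‖) ^ 2) +
      l₁ * dpol τ 1 x q (Real.sin η) (Real.cos η) +
      l₂ * dpol τ (-1) x q (Real.sin η) (Real.cos η) ≤
    -k₂ * x.re + lam * (‖x‖ ^ 2 + x.re) + dl + N x q η +
      (Mv * e0 (Real.sin η) (Real.cos η) *
        ((1 + I * τ) / 2 * x ^ 2 + x - tt * ((1 - I * τ) / 2))).re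

/-- the inequality of the certificate in the direction `ud τ`: inside and outside of the disc -/
structure PtX (τ k₂ lam dl tt B : ℝ) (gam c a b a' b' : ℂ) (p0 p1 p2 q0 q1 q2 : ℝ)
    (F : ℂ → ℂ) (N : ℂ → ℂ → ℝ → ℝ) : Prop where
  inn : ∀ (x q : ℂ) (η : ℝ), η ∈ Icc (0:ℝ) π → Real.sin η * ‖x‖ ≤ 10 → Real.sin η * ‖q‖ ≤ 38 →
    ∀ w : ℂ, w = wx x q (Real.sin η) (Real.cos η) → ‖w‖ ≤ 1 →
    ∀ l : ℝ, l = (1 - ‖w‖ ^ 2) / rF p0 p1 p2 w →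
    PtI τ k₂ lam dl tt B
      (‖gam * w + c + (l : ℂ) * (a * w + b) - e0 (Real.sin η) (Real.cos η)‖ ^ 2) (F w) N x q η
  out : ∀ (x q : ℂ) (η : ℝ), η ∈ Icc (0:ℝ) π → Real.sin η * ‖x‖ ≤ 10 → Real.sin η * ‖q‖ ≤ 38 →
    ∀ w : ℂ, w = wx x q (Real.sin η) (Real.cos η) → 1 < ‖w‖ →
    ∀ l : ℝ, l = (‖w‖ ^ 2 - 1) / rF q0 q1 q2 w →
    PtI τ k₂ lam dl tt B
      (‖gam * w + c + (l : ℂ) * (a' * w + b') - e0 (Real.sin η) (Real.cos η)‖ ^ 2) (F w) N x q η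

/-- the term of the multiplier -/
theorem mt_eq (τ κ dl : ℝ) (F : ℂ → ℂ) (X Y : ℂ) (s c : ℝ) :
    conj (ud τ) ^ 2 * ((1 + (τ : ℂ) * I) / 2) * F (wu (ud τ) (mX X Y s c)) * e0 s c *
      (X ^ 2 - Pool.Agent.Helper97.CKC.tau κ dl (ud τ)) =
    F (wu (ud τ) (mX X Y s c)) * e0 s c * ((1 + I * τ) / 2 * xu τ X ^ 2 + xu τ X -
      ((dl / (2 * κ) : ℝ) : ℂ) * ((1 - I * τ) / 2)) := by
  have hu := ud_conj τ
  have n2 := ne2 τ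
  have h1 := sq_eq τ X ((dl / (2 * κ) : ℝ) : ℂ)
  unfold Pool.Agent.Helper97.CKC.tau
  rw [h1]
  generalize F (wu (ud τ) (mX X Y s c)) = f
  generalize e0 s c = e
  generalize ((dl / (2 * κ) : ℝ) : ℂ) = t
  generalize xu τ X = x
  have h2 : conj (ud τ) ^ 2 * ud τ ^ 2 = 1 := by
    rw [← mul_pow, mul_comm, hu, one_pow]
  have h3 : (1 + I * (τ : ℂ)) / 2 * (1 + conj (ud τ)) = 1 := by
    rw [one_add_conj]
    field_simp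
  have h4 : (1 + I * (τ : ℂ)) / 2 * conj (ud τ) = (1 - I * τ) / 2 := by
    rw [conj_ud]
    field_simp
  rw [mul_comm (τ : ℂ) I]
  generalize conj (ud τ) = v at *
  generalize ud τ = u at *
  linear_combination ((1 + I * (τ:ℂ)) / 2 * f * e * (x ^ 2 + (1 + v) * x - v * t)) * h2 +
    f * e * x * h3 - f * e * t * h4

theorem bd_aux {B l T x z : ℝ} (hB : 0 ≤ B) (hT : 0 ≤ T) (hx0 : 0 ≤ x) (hx1 : x ≤ z + 1)
    (hl : l ≤ B * (1 + x ^ 2)) : l * T ≤ 3 * B * T * (1 + z ^ 2) := by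
  have h4 : x ^ 2 ≤ (z + 1) ^ 2 := pow_le_pow_left₀ hx0 hx1 2
  have h5 : 1 + x ^ 2 ≤ 3 * (1 + z ^ 2) := by nlinarith [sq_nonneg (z - 1)]
  calc l * T ≤ B * (1 + x ^ 2) * T := mul_le_mul_of_nonneg_right hl hT
    _ ≤ B * (3 * (1 + z ^ 2)) * T :=
      mul_le_mul_of_nonneg_right (mul_le_mul_of_nonneg_left h5 hB) hT
    _ = 3 * B * T * (1 + z ^ 2) := by ring

theorem bd_aux4 {B l T x z : ℝ} (hB : 0 ≤ B) (hT : 0 ≤ T) (hx0 : 0 ≤ x) (hx1 : x ≤ z + 1)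
    (h0 : 0 ≤ l) (hl : l ≤ B * (1 + x ^ 2)) : l * (T / 4) ≤ 3 * B * T * (1 + z ^ 2) := by
  refine le_trans ?_ (bd_aux hB hT hx0 hx1 hl)
  exact mul_le_mul_of_nonneg_left (by linarith) h0

theorem norm_Xt (τ : ℝ) (Z : ℂ) (s : ℝ) :
    (s * ‖1 + (1 + I * τ) * xu τ Z‖) ^ 2 = (1 + τ ^ 2) * (s * ‖Z‖) ^ 2 := by
  have h3 : ‖(1:ℂ) - I * τ‖ ^ 2 = 1 + τ ^ 2 := by
    rw [← Complex.normSq_eq_norm_sq, Complex.normSq_apply]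
    simp
    ring
  rw [← Xt_eq, norm_mul, ← h3]
  ring

/-- **the pointwise hypothesis of `sigC_of_cert`** -/
theorem hp_of {τ k₂ lam dl κ B : ℝ} (hB : 0 ≤ B) {gam c a b a' b' : ℂ} {p0 p1 p2 q0 q1 q2 : ℝ}
    {F : ℂ → ℂ} {N : ℂ → ℂ → ℝ → ℝ}
    (h : PtX τ k₂ lam dl (dl / (2 * κ)) B gam c a b a' b' p0 p1 p2 q0 q1 q2 F N)
    (X : ℂ → ℂ) (x₁ x₂ : ℝ) (_hX : NiceX X x₁ x₂) (ξ : ℝ) (_hξ : ξ ∈ Icc x₁ x₂) (η : ℝ)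
    (hη : η ∈ Icc (0:ℝ) π) (h9 : Real.sin η * ‖X (pt ξ η)‖ ≤ 9)
    (h38 : Real.sin η * ‖deriv X (pt ξ η) / X (pt ξ η)‖ ≤ 38) :
    ∃ l₀ l₁ l₂ : ℝ,
      0 ≤ l₀ ∧ l₀ ≤ 3 * B * (1 + τ ^ 2) * (1 + ‖X (pt ξ η)‖ ^ 2) ∧
      0 ≤ l₁ ∧ l₁ ≤ 3 * B * (1 + τ ^ 2) * (1 + ‖X (pt ξ η)‖ ^ 2) ∧
      0 ≤ l₂ ∧ l₂ ≤ 3 * B * (1 + τ ^ 2) * (1 + ‖X (pt ξ η)‖ ^ 2) ∧
      T2 (fun m _ => GC (ud τ) gam c a b a' b' p0 p1 p2 q0 q1 q2 m) X ξ η +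
        l₀ * (1 - (Real.sin η * ‖X (pt ξ η)‖) ^ 2) +
        l₁ * (16 - ‖dA 1 (X (pt ξ η)) (deriv X (pt ξ η)) (Real.sin η) (Real.cos η)‖ ^ 2) +
        l₂ * (16 - ‖dA (-1) (X (pt ξ η)) (deriv X (pt ξ η)) (Real.sin η) (Real.cos η)‖ ^ 2) ≤
      k₂ * fu (ud τ) (X (pt ξ η)) + lam * (‖X (pt ξ η)‖ ^ 2 - (X (pt ξ η)).re) + dl +
        N (xu τ (X (pt ξ η))) (conj (ud τ) * (deriv X (pt ξ η) / X (pt ξ η))) η +
        MtC (fun m => conj (ud τ) ^ 2 * ((1 + (τ : ℂ) * I) / 2) * F (wu (ud τ) m))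
          (Pool.Agent.Helper97.CKC.tau κ dl (ud τ)) X ξ η := by
  have hs : 0 ≤ Real.sin η := sin_nn' hη
  have hs1 := Real.sin_le_one η
  have hal := norm_alpha τ
  have hu1 := norm_ud τ
  have hsc : Real.sin η ^ 2 + Real.cos η ^ 2 = 1 := Real.sin_sq_add_cos_sq η
  have hw := wu_mX hu1 (X (pt ξ η)) (deriv X (pt ξ η)) (Real.sin η) (Real.cos η)
  have hMt : MtC (fun m => conj (ud τ) ^ 2 * ((1 + (τ : ℂ) * I) / 2) * F (wu (ud τ) m))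
      (Pool.Agent.Helper97.CKC.tau κ dl (ud τ)) X ξ η = (F (wu (ud τ) (mX (X (pt ξ η))
        (deriv X (pt ξ η)) (Real.sin η) (Real.cos η))) * e0 (Real.sin η) (Real.cos η) *
        ((1 + I * τ) / 2 * xu τ (X (pt ξ η)) ^ 2 + xu τ (X (pt ξ η)) -
        ((dl / (2 * κ) : ℝ) : ℂ) * ((1 - I * τ) / 2))).re := by
    unfold MtC
    rw [← mt_eq]
  have hfld := fldC_GC (ud τ) gam c a b a' b' p0 p1 p2 q0 q1 q2
  have hT : T2 (fun m _ => GC (ud τ) gam c a b a' b' p0 p1 p2 q0 q1 q2 m) X ξ η =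
      ‖GC (ud τ) gam c a b a' b' p0 p1 p2 q0 q1 q2 (mX (X (pt ξ η)) (deriv X (pt ξ η))
        (Real.sin η) (Real.cos η)) - e0 (Real.sin η) (Real.cos η)‖ ^ 2 := rfl
  rw [hMt, hT]
  have hd1 := dpol_eq τ (σ := 1) (by norm_num) (X (pt ξ η)) (deriv X (pt ξ η)) hsc
  have hd2 := dpol_eq τ (σ := -1) (by norm_num) (X (pt ξ η)) (deriv X (pt ξ η)) hsc
  have hfu := fu_eq τ (X (pt ξ η))
  have har := area_eq τ (X (pt ξ η))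
  have hXt := Xt_eq τ (X (pt ξ η))
  have hnx := norm_xu τ (X (pt ξ η))
  rw [hfu, har]
  generalize deriv X (pt ξ η) = Y at *
  generalize X (pt ξ η) = Z at *
  have hwx : wu (ud τ) (mX Z Y (Real.sin η) (Real.cos η)) =
      wx (xu τ Z) (conj (ud τ) * (Y / Z)) (Real.sin η) (Real.cos η) := hw
  have hnq : ‖conj (ud τ) * (Y / Z)‖ = ‖Y / Z‖ := by
    rw [norm_mul, RCLike.norm_conj, hu1, one_mul]
  have hx1 : ‖xu τ Z‖ ≤ ‖Z‖ + 1 := by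
    rw [hnx]
    exact (norm_sub_le _ _).trans (by linarith)
  have hx10 : Real.sin η * ‖xu τ Z‖ ≤ 10 := by
    have := mul_le_mul_of_nonneg_left hx1 hs
    nlinarith
  have hq38 : Real.sin η * ‖conj (ud τ) * (Y / Z)‖ ≤ 38 := by rw [hnq]; exact h38
  -- the inequality at the point
  have key : PtI τ k₂ lam dl (dl / (2 * κ)) B
      (‖GC (ud τ) gam c a b a' b' p0 p1 p2 q0 q1 q2 (mX Z Y (Real.sin η) (Real.cos η)) -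
        e0 (Real.sin η) (Real.cos η)‖ ^ 2)
      (F (wu (ud τ) (mX Z Y (Real.sin η) (Real.cos η)))) N (xu τ Z) (conj (ud τ) * (Y / Z)) η := by
    by_cases h1 : ‖wu (ud τ) (mX Z Y (Real.sin η) (Real.cos η))‖ ≤ 1
    · have k1 := hfld.T_in hη h9 h38 rfl h1
      have k2 := h.inn _ _ η hη hx10 hq38 _ hwx h1 _ rfl
      obtain ⟨l₀, l₁, l₂, a1, a2, a3, a4, a5, a6, a7⟩ := k2
      exact ⟨l₀, l₁, l₂, a1, a2, a3, a4, a5, a6, by linarith⟩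
    · have k1 := hfld.T_out hη h9 h38 rfl (not_le.1 h1)
      have k2 := h.out _ _ η hη hx10 hq38 _ hwx (not_le.1 h1) _ rfl
      obtain ⟨l₀, l₁, l₂, a1, a2, a3, a4, a5, a6, a7⟩ := k2
      exact ⟨l₀, l₁, l₂, a1, a2, a3, a4, a5, a6, by linarith⟩
  obtain ⟨l₀, l₁, l₂, a1, a2, a3, a4, a5, a6, a7⟩ := key
  have hτ : (0:ℝ) ≤ 1 + τ ^ 2 := by positivity
  rw [hd1, hd2, norm_Xt] at a7
  have hx0 := norm_nonneg (xu τ Z)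
  refine ⟨l₀ * (1 + τ ^ 2), l₁ * ((1 + τ ^ 2) / 4), l₂ * ((1 + τ ^ 2) / 4),
    mul_nonneg a1 hτ, bd_aux hB hτ hx0 hx1 a2, mul_nonneg a3 (by positivity),
    bd_aux4 hB hτ hx0 hx1 a3 a4, mul_nonneg a5 (by positivity), bd_aux4 hB hτ hx0 hx1 a5 a6, ?_⟩
  rw [mul_neg, ← neg_mul]
  refine le_trans (le_of_eq ?_) a7
  ring

/-- **from the inequality in the direction `ud τ` to the integral means** -/
theorem sigC_of_X {τ k₂ lam dl κ B Mb : ℝ} (hκ1 : 1 ≤ κ) (hB : 0 ≤ B) (hlam : 0 ≤ lam)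
    (hk₂ : lam ≤ k₂) (hdl : 0 ≤ dl) (hκ : k₂ < 2 * κ) (hMb : Mb < 2 * κ)
    {gam c a b a' b' : ℂ} {p0 p1 p2 q0 q1 q2 : ℝ} (hp : InL p0 p1 p2) (hq : OutD q0 q1 q2)
    {F M' : ℂ → ℂ} {Lm ε₀ : ℝ} (hε₀ : 0 < ε₀)
    (hM : MOk (fun m => conj (ud τ) ^ 2 * ((1 + (τ : ℂ) * I) / 2) * F (wu (ud τ) m)) M' Mb Lm ε₀)
    {N : ℂ → ℂ → ℝ → ℝ} (hN : NullX τ N)
    (h : PtX τ k₂ lam dl (dl / (2 * κ)) B gam c a b a' b' p0 p1 p2 q0 q1 q2 F N)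
    {t : ℂ} (ht : κ ≤ ‖t‖) (htu : t = -((‖t‖ : ℂ) * conj (ud τ))) {e : ℝ} (he : 0 < e) :
    Pool.Agent.Helper58.CKC.SigC t (‖t‖ - 1 + dl + e) := by
  obtain ⟨L, hG⟩ := glip_GC (norm_ud τ) gam c a b a' b' hp hq
  exact sigC_of_cert (norm_ud τ) hκ1 (by positivity : 0 ≤ 3 * B * (1 + τ ^ 2)) hlam hk₂ hdl hκ hG
    hM hε₀ hMb (IsNullC.mono (fun _ _ _ h => h.toF) hN) (hp_of hB h) ht htu he

end Pool.Agent.Helper99.CKC
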