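import Pool.Agent.Helper68.EKC.E1aU
import Pool.Agent.Helper14.CK.JBasic
set_option autoImplicit false
open Complex MeasureTheory Metric Set Filter Topology
open scoped Real ComplexConjugate

/-!
Project CKC: the logarithm of `N β`: existence, derivative, comparison of the branches of two
close functions.
-/

namespace Pool.Agent.Helper99.CKC

open Pool.Agent.Helper39.Area Pool.Agent.Helper68.EKC
open Pool.Agent.Helper52.EK hiding Rect
open Pool.Agent.Helper14.CK

theorem N_diff {β : ℂ → ℂ} (h : Ext β) : DifferentiableOn ℂ (N β) (ball 0 1) := by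
  unfold N
  exact (differentiableOn_const _).sub ((differentiableOn_id.pow 2).mul (h.diff.deriv isOpen_ball))

theorem exists_isLog {β : ℂ → ℂ} (h : Ext β) : ∃ L, IsLog β L := by
  have hs : IsSimplyConnected (ball (0:ℂ) 1) := by
    have hc : ContractibleSpace (ball (0:ℂ) 1) :=
      (convex_ball (0:ℂ) 1).contractibleSpace ⟨0, mem_ball_self one_pos⟩
    show SimplyConnectedSpace (ball (0:ℂ) 1)
    infer_instance
  have h00 : (0:ℂ) ∉ N β '' ball 0 1 := by
    rintro ⟨z, hz, h0⟩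
    exact h.ne z hz h0
  obtain ⟨Φ, hc, hΦ⟩ := Complex.exists_continuousOn_eqOn_exp_comp hs isOpen_ball
    (N_diff h).continuousOn h00
  refine ⟨fun z => Φ z - Φ 0, hc.sub continuousOn_const, by simp, ?_⟩
  intro z hz
  have h0 : Complex.exp (Φ 0) = 1 := by
    have h1 : Complex.exp (Φ 0) = N β 0 := hΦ (mem_ball_self one_pos)
    rw [h1]
    simp [N]
  rw [Complex.exp_sub, h0, div_one]
  exact hΦ hz

theorem hasDeriv_log {β L : ℂ → ℂ} (h : Ext β) (hL : IsLog β L) {z : ℂ}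
    (hz : z ∈ ball (0:ℂ) 1) : HasDerivAt L (deriv (N β) z / N β z) z := by
  have hN : N β z ≠ 0 := h.ne z hz
  have hd : HasDerivAt (N β) (deriv (N β) z) z :=
    ((N_diff h).differentiableAt (isOpen_ball.mem_nhds hz)).hasDerivAt
  have h1 : HasDerivAt (fun w => L z + Complex.log (N β w / N β z)) (deriv (N β) z / N β z) z := by
    have h2 := hd.div_const (N β z)
    have h3 : N β z / N β z ∈ slitPlane := by rw [div_self hN]; exact one_mem_slitPlane
    have h4 := (h2.clog h3).const_add (L z)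
    refine h4.congr_deriv ?_
    rw [div_self hN, div_one]
  refine h1.congr_of_eventuallyEq ?_
  have hc : ContinuousAt L z := hL.cont.continuousAt (isOpen_ball.mem_nhds hz)
  have hc2 : Tendsto (fun w => |(L w - L z).im|) (𝓝 z) (𝓝 0) := by
    have h5 : Tendsto (fun w => |(L w - L z).im|) (𝓝 z) (𝓝 |(L z - L z).im|) :=
      (continuous_abs.comp Complex.continuous_im).continuousAt.tendsto.comp
        (hc.tendsto.sub_const (L z))
    simpa using h5
  have h5 : ∀ᶠ w in 𝓝 z, |(L w - L z).im| < π := hc2.eventually (gt_mem_nhds Real.pi_pos)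
  filter_upwards [h5, isOpen_ball.mem_nhds hz] with w hw hwb
  have h6 : N β w / N β z = Complex.exp (L w - L z) := by
    rw [Complex.exp_sub, hL.exp w hwb, hL.exp z hz]
  rw [abs_lt] at hw
  rw [h6, Complex.log_exp hw.1 hw.2.le]
  ring

theorem eq_zero_of_exp {w : ℂ} (h : Complex.exp w = 1) (hw : ‖w‖ < 2 * π) : w = 0 := by
  obtain ⟨n, hn⟩ := Complex.exp_eq_one_iff.mp h
  have h1 : ‖w‖ = |(n : ℝ)| * (2 * π) := by
    rw [hn]
    simp [abs_of_pos Real.pi_pos]
  have h2 : |(n : ℝ)| < 1 := by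
    rw [h1] at hw
    have := Real.pi_pos
    by_contra h3
    nlinarith [not_lt.mp h3]
  have h3 : |n| < 1 := by exact_mod_cast h2
  have h4 : n = 0 := Int.abs_lt_one_iff.mp h3
  rw [hn, h4]
  simp

theorem mem_slit {w : ℂ} (h : ‖w - 1‖ ≤ 1 / 2) : w ∈ slitPlane := by
  refine Or.inl ?_
  have h1 := Complex.abs_re_le_norm (w - 1)
  rw [Complex.sub_re, Complex.one_re] at h1
  have := (abs_le.mp (h1.trans h)).1
  linarith

theorem norm_log_le {w : ℂ} (h : ‖w - 1‖ ≤ 1 / 2) : ‖Complex.log w‖ ≤ 3 / 4 := by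
  have h1 := Complex.norm_log_one_add_half_le_self h
  rw [show (1 : ℂ) + (w - 1) = w by ring] at h1
  linarith

/-- comparison of the branches -/
theorem log_diff {β γ L L' : ℂ → ℂ} (hβ : Ext β) (hγ : Ext γ) (hL : IsLog β L)
    (hL' : IsLog γ L') {S : Set (ℝ × ℝ)} (hS : IsPreconnected S)
    (hSb : ∀ p ∈ S, ep (-p.1) p.2 ∈ ball (0:ℂ) 1)
    (hd : ∀ p ∈ S, ‖N γ (ep (-p.1) p.2) / N β (ep (-p.1) p.2) - 1‖ ≤ 1 / 2)
    {p1 : ℝ × ℝ} (h1 : p1 ∈ S) (h1' : ‖ep (-p1.1) p1.2‖ ≤ 1 / 2) :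
    ∀ p ∈ S, L' (ep (-p.1) p.2) - L (ep (-p.1) p.2) =
      Complex.log (N γ (ep (-p.1) p.2) / N β (ep (-p.1) p.2)) := by
  have cep : Continuous fun p : ℝ × ℝ => ep (-p.1) p.2 := by
    unfold ep
    fun_prop
  have he : ∀ p ∈ S, Complex.exp (L' (ep (-p.1) p.2) - L (ep (-p.1) p.2) -
      Complex.log (N γ (ep (-p.1) p.2) / N β (ep (-p.1) p.2))) = 1 := by
    intro p hp
    have hb := hSb p hp
    have h2 : N γ (ep (-p.1) p.2) / N β (ep (-p.1) p.2) ≠ 0 :=
      div_ne_zero (hγ.ne _ hb) (hβ.ne _ hb)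
    rw [Complex.exp_sub, Complex.exp_sub, hL'.exp _ hb, hL.exp _ hb, Complex.exp_log h2,
      div_self h2]
  have hc : ContinuousOn (fun p : ℝ × ℝ => L' (ep (-p.1) p.2) - L (ep (-p.1) p.2) -
      Complex.log (N γ (ep (-p.1) p.2) / N β (ep (-p.1) p.2))) S := by
    refine ContinuousOn.sub (ContinuousOn.sub (hL'.cont.comp cep.continuousOn hSb)
      (hL.cont.comp cep.continuousOn hSb)) (ContinuousOn.clog ?_ fun p hp => mem_slit (hd p hp))
    exact ((N_diff hγ).continuousOn.comp cep.continuousOn hSb).div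
      ((N_diff hβ).continuousOn.comp cep.continuousOn hSb) fun p hp => hβ.ne _ (hSb p hp)
  have h0 : L' (ep (-p1.1) p1.2) - L (ep (-p1.1) p1.2) -
      Complex.log (N γ (ep (-p1.1) p1.2) / N β (ep (-p1.1) p1.2)) = 0 := by
    refine eq_zero_of_exp (he p1 h1) ?_
    have a1 := hL'.goluzin hγ (hSb p1 h1)
    have a2 := hL.goluzin hβ (hSb p1 h1)
    have a3 := norm_log_le (hd p1 h1)
    have a4 : -Real.log (1 - ‖ep (-p1.1) p1.2‖ ^ 2) ≤ 1 / 3 := by
      have b1 : (3 / 4 : ℝ) ≤ 1 - ‖ep (-p1.1) p1.2‖ ^ 2 := by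
        nlinarith [norm_nonneg (ep (-p1.1) p1.2)]
      have b2 := Real.one_sub_inv_le_log_of_pos (show (0:ℝ) < 1 - ‖ep (-p1.1) p1.2‖ ^ 2 by linarith)
      have b3 : (1 - ‖ep (-p1.1) p1.2‖ ^ 2)⁻¹ ≤ (3 / 4 : ℝ)⁻¹ := by gcongr
      norm_num at b3
      linarith
    have a5 := norm_sub_le (L' (ep (-p1.1) p1.2) - L (ep (-p1.1) p1.2))
      (Complex.log (N γ (ep (-p1.1) p1.2) / N β (ep (-p1.1) p1.2)))
    have a6 := norm_sub_le (L' (ep (-p1.1) p1.2)) (L (ep (-p1.1) p1.2))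
    have a7 := Real.pi_gt_three
    linarith
  intro p hp
  have h3 := eq_zero_of_exp_one hS hc he h1 h0 p hp
  exact sub_eq_zero.mp h3

/-- the rectangle with a slit into the disc of radius `1/2` -/
def SS (a b θ0 : ℝ) : Set (ℝ × ℝ) := Rect a b ∪ (Icc a 1 ×ˢ {θ0})

theorem SS_pre {a b θ0 : ℝ} (hab : a ≤ b) (hb : b ≤ 1) (hθ : θ0 ∈ Icc (-π) π) :
    IsPreconnected (SS a b θ0) := by
  have h1 : IsPreconnected (Rect a b) := isPreconnected_Icc.prod isPreconnected_Icc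
  have h2 : IsPreconnected (Icc a 1 ×ˢ ({θ0} : Set ℝ)) :=
    isPreconnected_Icc.prod isPreconnected_singleton
  exact IsPreconnected.union (a, θ0) ⟨⟨le_rfl, hab⟩, hθ⟩ ⟨⟨le_rfl, hab.trans hb⟩, rfl⟩ h1 h2

theorem far (p : ℂ) (x : ℝ) : ‖ep (-x) (arg (-p)) - p‖ = Real.exp (-x) + ‖p‖ := by
  have h1 := Complex.norm_mul_exp_arg_mul_I (-p)
  rw [norm_neg] at h1
  have h2 : ep (-x) (arg (-p)) - p =
      ((Real.exp (-x) + ‖p‖ : ℝ) : ℂ) * Complex.exp (arg (-p) * I) := by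
    have h3 : p = -(‖p‖ * Complex.exp (arg (-p) * I)) := by rw [h1]; ring
    have h4 : ep (-x) (arg (-p)) = (Real.exp (-x) : ℂ) * Complex.exp (arg (-p) * I) := by
      unfold ep
      rw [Complex.exp_add, Complex.ofReal_exp]
    rw [h4]
    conv_lhs => rw [h3]
    push_cast
    rw [show arg (- -(‖p‖ * Complex.exp (arg (-p) * I))) = arg (-p) by rw [neg_neg, h1]]
    ring
  rw [h2, norm_mul, Complex.norm_exp_ofReal_mul_I, mul_one, Complex.norm_real, Real.norm_eq_abs,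
    abs_of_nonneg (by positivity)]

end Pool.Agent.Helper99.CKC
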