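import Pool.Agent.Helper27.CK.DJ2
import Pool.Agent.Helper97.CKC.Defs
import Pool.Agent.Helper99.CKC.Branch
set_option autoImplicit false
open Complex MeasureTheory Metric Set Filter Topology
open scoped Real ComplexConjugate

/-!
Project CKC: the first variation of the functional with a complex exponent in log-polar
coordinates.
-/

namespace Pool.Agent.Helper99.CKC

open Pool.Agent.Helper39.Area Pool.Agent.Helper68.EKC Pool.Agent.Helper5.CK
open Pool.Agent.Helper52.EK hiding Rect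
open Pool.Agent.Helper14.CK
open Pool.Agent.Helper27.CK (Wt2 An Geo dl hd hh_re hh_im hasDerivAt_hh ep_mem_An An_ball contRect
  qN cont_ep)
open Pool.Agent.Helper97.CKC (ka kb kp kq)

noncomputable section

/-- the density -/
def FT (T : ℂ) (L : ℂ → ℂ) (p : ℝ × ℝ) : ℝ := Real.exp (T * L (ep (-p.1) p.2)).re

/-- the functional -/
def JT (T : ℂ) (om u : ℝ → ℝ) (a b : ℝ) (L : ℂ → ℂ) : ℝ :=
  ∫ p in Rect a b, om p.1 * u p.2 * FT T L p

/-- the kernel of the first variation -/
def bodyT (T : ℂ) (om om' u u' : ℝ → ℝ) (β : ℂ → ℂ) (z0 : ℂ) (p : ℝ × ℝ) : ℂ :=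
  ((om p.1 * u p.2 : ℝ) : ℂ) * (T * (4 * z0 ^ 2 * Pool.Agent.Helper52.CK.kA β (ep (-p.1) p.2) z0) -
      (T.re : ℂ) +
      (-T * kp (ep (-p.1) p.2) z0 + conj T * kq (ep (-p.1) p.2) z0) / 2 -
      (T * ka (ep (-p.1) p.2) z0 + conj T * kb (ep (-p.1) p.2) z0) +
      2 * (ka (ep (-p.1) p.2) z0 + kb (ep (-p.1) p.2) z0)) +
    ((om' p.1 * u p.2 : ℝ) : ℂ) * Pool.Agent.Helper52.CK.k3 (ep (-p.1) p.2) z0 +
    ((om p.1 * u' p.2 : ℝ) : ℂ) * Pool.Agent.Helper52.CK.k5 (ep (-p.1) p.2) z0

/-- the first variation -/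
def ET (T : ℂ) (om om' u u' : ℝ → ℝ) (a b : ℝ) (β L : ℂ → ℂ) (z0 : ℂ) : ℂ :=
  ∫ p in Rect a b, (FT T L p : ℂ) * bodyT T om om' u u' β z0 p

variable {a b : ℝ} {β L : ℂ → ℂ} {z0 B T : ℂ} {om om' u u' : ℝ → ℝ}

theorem cFT (hL : IsLog β L) (ha : 0 < a) (T : ℂ) : ContinuousOn (FT T L) (Rect a b) := by
  have h1 : ContinuousOn L (An a b) := hL.cont.mono fun z hz => An_ball ha hz
  have h2 : ContinuousOn (fun z => Real.exp (T * L z).re) (An a b) :=
    Real.continuous_exp.comp_continuousOn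
      (Complex.continuous_re.comp_continuousOn (continuousOn_const.mul h1))
  exact contRect h2

/-- derivative of the density in `x` -/
theorem FT_x (h : Geo a b β z0) (hL : IsLog β L) {x θ : ℝ} (hx : (x, θ) ∈ Rect a b) :
    HasDerivAt (fun x => FT T L (x, θ)) (-(FT T L (x, θ) * (T * qN β (ep (-x) θ)).re)) x := by
  have hz := An_ball h.a_pos (ep_mem_An hx)
  have h1 := hasDerivAt_re ((hasDerivAt_comp_x (hasDeriv_log h.ext hL hz)).const_mul T)
  have h2 := h1.exp
  refine h2.congr_deriv ?_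
  have h3 : T * -(ep (-x) θ * (deriv (N β) (ep (-x) θ) / N β (ep (-x) θ))) =
      -(T * qN β (ep (-x) θ)) := by
    unfold qN
    ring
  rw [h3, Complex.neg_re]
  unfold FT
  ring

/-- derivative of the density in `θ` -/
theorem FT_θ (h : Geo a b β z0) (hL : IsLog β L) {x θ : ℝ} (hx : (x, θ) ∈ Rect a b) :
    HasDerivAt (fun θ => FT T L (x, θ)) (-(FT T L (x, θ) * (T * qN β (ep (-x) θ)).im)) θ := by
  have hz := An_ball h.a_pos (ep_mem_An hx)
  have h1 := hasDerivAt_re ((hasDerivAt_comp_θ (hasDeriv_log h.ext hL hz)).const_mul T)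
  have h2 := h1.exp
  refine h2.congr_deriv ?_
  have h3 : T * (I * (ep (-x) θ * (deriv (N β) (ep (-x) θ) / N β (ep (-x) θ)))) =
      I * (T * qN β (ep (-x) θ)) := by
    unfold qN
    ring
  rw [h3, Complex.I_mul_re]
  unfold FT
  ring

/-- the `x` flux -/
def G1 (T : ℂ) (om u : ℝ → ℝ) (L : ℂ → ℂ) (z0 B : ℂ) (p : ℝ × ℝ) : ℝ :=
  -(om p.1 * (u p.2 * (FT T L p * (hh z0 B (ep (-p.1) p.2)).re)))

def G1x (T : ℂ) (om om' u : ℝ → ℝ) (β L : ℂ → ℂ) (z0 B : ℂ) (p : ℝ × ℝ) : ℝ :=
  -(om' p.1 * (u p.2 * (FT T L p * (hh z0 B (ep (-p.1) p.2)).re)) +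
    om p.1 * (u p.2 * (-(FT T L p * (T * qN β (ep (-p.1) p.2)).re) *
      (hh z0 B (ep (-p.1) p.2)).re +
      FT T L p * (-(ep (-p.1) p.2 * hd z0 B (ep (-p.1) p.2))).re)))

/-- the `θ` flux -/
def G2 (T : ℂ) (om u : ℝ → ℝ) (L : ℂ → ℂ) (z0 B : ℂ) (p : ℝ × ℝ) : ℝ :=
  om p.1 * (u p.2 * (FT T L p * (hh z0 B (ep (-p.1) p.2)).im))

def G2θ (T : ℂ) (om u u' : ℝ → ℝ) (β L : ℂ → ℂ) (z0 B : ℂ) (p : ℝ × ℝ) : ℝ :=
  om p.1 * (u' p.2 * (FT T L p * (hh z0 B (ep (-p.1) p.2)).im) +
    u p.2 * (-(FT T L p * (T * qN β (ep (-p.1) p.2)).im) * (hh z0 B (ep (-p.1) p.2)).im +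
      FT T L p * (I * (ep (-p.1) p.2 * hd z0 B (ep (-p.1) p.2))).im))

theorem c_Tq (h : Geo a b β z0) (T : ℂ) :
    ContinuousOn (fun p : ℝ × ℝ => T * qN β (ep (-p.1) p.2)) (Rect a b) :=
  continuousOn_const.mul (contRect h.cq)

theorem G1_int (h : Geo a b β z0) (hL : IsLog β L) (W : Wt2 om om' a b u u') (T B : ℂ) :
    ContinuousOn (G1x T om om' u β L z0 B) (Rect a b) ∧
      ∫ p in Rect a b, G1x T om om' u β L z0 B p = 0 := by
  have co : ContinuousOn (fun p : ℝ × ℝ => om p.1) (Rect a b) :=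
    (W.c_om.comp continuous_fst).continuousOn
  have co' : ContinuousOn (fun p : ℝ × ℝ => om' p.1) (Rect a b) :=
    (W.om_c.comp continuous_fst).continuousOn
  have cu : ContinuousOn (fun p : ℝ × ℝ => u p.2) (Rect a b) :=
    (W.c_u.comp continuous_snd).continuousOn
  have cF := cFT (b := b) hL h.a_pos T
  have hc : ContinuousOn (G1x T om om' u β L z0 B) (Rect a b) := by
    unfold G1x
    refine ContinuousOn.neg (ContinuousOn.add (co'.mul (cu.mul (cF.mul (h.c_hr B)))) ?_)
    refine co.mul (cu.mul (ContinuousOn.add ?_ ?_))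
    · exact (cF.mul (Complex.continuous_re.comp_continuousOn (c_Tq h T))).neg.mul (h.c_hr B)
    · exact cF.mul (Complex.continuous_re.comp_continuousOn (h.c_zd B).neg)
  refine ⟨hc, ibp_x h.ab hc (G := G1 T om u L z0 B) ?_ ?_ ?_⟩
  · intro x hx θ hθ
    have hxr : (x, θ) ∈ Rect a b := ⟨hx, hθ⟩
    have hz := ep_mem_An hxr
    have h1 := FT_x (T := T) h hL hxr
    have h2 := hasDerivAt_re (hasDerivAt_comp_x (hasDerivAt_hh (τ := B) (h.ne hz) (h.conj_ne3 hz)))
    have h3 := ((W.om_d x).mul ((h1.mul h2).const_mul (u θ))).neg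
    exact h3.congr_deriv (by unfold G1x; simp only [Pi.mul_apply])
  · intro θ
    simp [G1, W.om_a]
  · intro θ
    simp [G1, W.om_b]

theorem G2_int (h : Geo a b β z0) (hL : IsLog β L) (W : Wt2 om om' a b u u') (T B : ℂ) :
    ContinuousOn (G2θ T om u u' β L z0 B) (Rect a b) ∧
      ∫ p in Rect a b, G2θ T om u u' β L z0 B p = 0 := by
  have co : ContinuousOn (fun p : ℝ × ℝ => om p.1) (Rect a b) :=
    (W.c_om.comp continuous_fst).continuousOn
  have cu : ContinuousOn (fun p : ℝ × ℝ => u p.2) (Rect a b) :=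
    (W.c_u.comp continuous_snd).continuousOn
  have cu' : ContinuousOn (fun p : ℝ × ℝ => u' p.2) (Rect a b) :=
    (W.u_c.comp continuous_snd).continuousOn
  have cF := cFT (b := b) hL h.a_pos T
  have hc : ContinuousOn (G2θ T om u u' β L z0 B) (Rect a b) := by
    unfold G2θ
    refine co.mul (ContinuousOn.add (cu'.mul (cF.mul (h.c_hi B))) ?_)
    refine cu.mul (ContinuousOn.add ?_ ?_)
    · exact (cF.mul (Complex.continuous_im.comp_continuousOn (c_Tq h T))).neg.mul (h.c_hi B)
    · exact cF.mul (Complex.continuous_im.comp_continuousOn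
        (continuousOn_const.mul (h.c_zd B)))
  refine ⟨hc, ibp_θ h.ab hc (G := G2 T om u L z0 B) ?_ ?_⟩
  · intro x hx θ hθ
    have hxr : (x, θ) ∈ Rect a b := ⟨hx, hθ⟩
    have hz := ep_mem_An hxr
    have h1 := FT_θ (T := T) h hL hxr
    have h2 := hasDerivAt_im (hasDerivAt_comp_θ (hasDerivAt_hh (τ := B) (h.ne hz) (h.conj_ne3 hz)))
    have h3 := (((W.u_d θ).mul (h1.mul h2)).const_mul (om x))
    exact h3.congr_deriv (by unfold G2θ; simp only [Pi.mul_apply])
  · intro x
    have e1 : ep (-x) (-π) = ep (-x) π := by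
      unfold ep
      rw [Complex.exp_add, Complex.exp_add]
      congr 1
      push_cast
      rw [neg_mul, Complex.exp_neg, Complex.exp_pi_mul_I]
      norm_num
    unfold G2 FT
    simp only
    rw [e1, W.u_per]

theorem kA_eq (β : ℂ → ℂ) (z z0 : ℂ) : 4 * z0 ^ 2 * Pool.Agent.Helper52.CK.kA β z z0 =
    z0 ^ 2 * dphi β z0 ^ 2 / (phi β z - phi β z0) ^ 2 := by
  unfold Pool.Agent.Helper52.CK.kA
  have : (phi β z - phi β z0) ^ 2 = (phi β z0 - phi β z) ^ 2 := by ring
  rw [this]
  generalize phi β z0 - phi β z = X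
  rw [div_pow, mul_pow]
  by_cases hX : X = 0
  · rw [hX]; simp
  · field_simp
    ring

theorem conj_kb (z z0 : ℂ) : conj (kb z z0) = z * (conj z0 / (1 - conj z0 * z) ^ 2) := by
  unfold kb
  simp [map_div₀]
  ring

theorem conj_kq (z z0 : ℂ) : conj (kq z z0) = (1 + conj z0 * z) / (1 - conj z0 * z) := by
  unfold kq
  simp [map_div₀]

theorem hh_eq (p B z : ℂ) : hh p B z = (1 / 2) * (B * kp z p - conj B * conj (kq z p)) := by
  rw [conj_kq]
  rfl

theorem hd_eq (p B z : ℂ) : z * hd p B z = -(B * ka z p) - conj B * conj (kb z p) := by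
  rw [conj_kb]
  unfold hd ka
  ring

/-- pointwise identity -/
theorem dl_bodyT (h : Geo a b β z0) {p : ℝ × ℝ} (hp : p ∈ Rect a b) :
    om p.1 * u p.2 * (FT T L p * (T * dl β z0 B (ep (-p.1) p.2)).re) =
      G1x T om om' u β L z0 B p + G2θ T om u u' β L z0 B p +
        FT T L p * (B * bodyT T om om' u u' β z0 p).re := by
  have hz := ep_mem_An hp
  obtain ⟨z, hzd⟩ : ∃ z, z = ep (-p.1) p.2 := ⟨_, rfl⟩
  rw [← hzd] at hz
  have e3 : (hh z0 B z).re = (B * Pool.Agent.Helper52.CK.k3 z z0).re := by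
    rw [hh_re (h.ne hz) (h.conj_ne hz)]
    unfold Pool.Agent.Helper27.CK.k3 Pool.Agent.Helper52.CK.k3
    push_cast
    rfl
  have e5 : -(hh z0 B z).im = (B * Pool.Agent.Helper52.CK.k5 z z0).re := by
    rw [hh_im]
    rfl
  have e4 := hd_eq z0 B z
  have e6 := hh_eq z0 B z
  have ed : T * dl β z0 B z = B * (T * (4 * z0 ^ 2 * Pool.Agent.Helper52.CK.kA β z z0)) +
      (T * qN β z) * hh z0 B z - T * hh z0 B z + T * (z * hd z0 B z) - T * (B.re : ℂ) := by
    rw [kA_eq]
    unfold dl qN eps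
    ring
  have er := congrArg Complex.re ed
  have eb : (B * bodyT T om om' u u' β z0 p).re = om p.1 * u p.2 *
      ((B * (T * (4 * z0 ^ 2 * Pool.Agent.Helper52.CK.kA β z z0))).re - (T * (B.re : ℂ)).re -
        (T * hh z0 B z).re + (T * (z * hd z0 B z)).re - 2 * (z * hd z0 B z).re) +
      om' p.1 * u p.2 * (hh z0 B z).re + om p.1 * u' p.2 * -(hh z0 B z).im := by
    unfold bodyT
    rw [← hzd, e3, e5, e4, e6]
    generalize 4 * z0 ^ 2 * Pool.Agent.Helper52.CK.kA β z z0 = X
    generalize Pool.Agent.Helper52.CK.k3 z z0 = K3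
    generalize Pool.Agent.Helper52.CK.k5 z z0 = K5
    generalize ka z z0 = A1
    generalize kb z z0 = A2
    generalize kp z z0 = A3
    generalize kq z z0 = A4
    have e7 : B * (((om p.1 * u p.2 : ℝ) : ℂ) * (T * X - (T.re : ℂ) +
        (-T * A3 + conj T * A4) / 2 - (T * A1 + conj T * A2) + 2 * (A1 + A2)) +
        ((om' p.1 * u p.2 : ℝ) : ℂ) * K3 + ((om p.1 * u' p.2 : ℝ) : ℂ) * K5) =
        ((om p.1 * u p.2 : ℝ) : ℂ) * (B * (T * X)) + ((om p.1 * u p.2 : ℝ) : ℂ) *
          (-((T.re : ℂ) * B) + ((1 / 2 : ℝ) : ℂ) * (-(B * (T * A3)) + B * (conj T * A4)) -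
          (B * (T * A1) + B * (conj T * A2)) + ((2 : ℝ) : ℂ) * (B * A1 + B * A2)) +
        ((om' p.1 * u p.2 : ℝ) : ℂ) * (B * K3) +
        ((om p.1 * u' p.2 : ℝ) : ℂ) * (B * K5) := by
      push_cast
      ring
    have e8 : T * (1 / 2 * (B * A3 - conj B * conj A4)) =
        ((1 / 2 : ℝ) : ℂ) * (B * (T * A3) - conj (B * (conj T * A4))) := by
      simp only [map_mul, Complex.conj_conj]
      push_cast
      ring
    have e9 : T * (-(B * A1) - conj B * conj A2) = -(B * (T * A1)) - conj (B * (conj T * A2)) := by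
      simp only [map_mul, Complex.conj_conj]
      ring
    have e10 : -(B * A1) - conj B * conj A2 = -(B * A1) - conj (B * A2) := by
      simp only [map_mul]
    rw [e7, e8, e9, e10]
    simp only [Complex.add_re, Complex.sub_re, Complex.neg_re, Complex.re_ofReal_mul,
      Complex.conj_re]
    rw [Complex.re_mul_ofReal]
    ring
  rw [← hzd, er, eb]
  unfold G1x G2θ
  rw [← hzd]
  have e11 : (-(z * hd z0 B z)).re = -(z * hd z0 B z).re := Complex.neg_re _
  have e12 : (I * (z * hd z0 B z)).im = (z * hd z0 B z).re := by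
    rw [Complex.I_mul_im]
  rw [e11, e12]
  simp only [Complex.add_re, Complex.sub_re, Complex.mul_re (T * qN β z) (hh z0 B z)]
  ring

theorem c_bodyT (h : Geo a b β z0) (W : Wt2 om om' a b u u') (T : ℂ) :
    ContinuousOn (bodyT T om om' u u' β z0) (Rect a b) := by
  have co : ContinuousOn (fun p : ℝ × ℝ => ((om p.1 * u p.2 : ℝ) : ℂ)) (Rect a b) :=
    (Complex.continuous_ofReal.comp ((W.c_om.comp continuous_fst).mul
      (W.c_u.comp continuous_snd))).continuousOn
  have co' : ContinuousOn (fun p : ℝ × ℝ => ((om' p.1 * u p.2 : ℝ) : ℂ)) (Rect a b) :=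
    (Complex.continuous_ofReal.comp ((W.om_c.comp continuous_fst).mul
      (W.c_u.comp continuous_snd))).continuousOn
  have cu' : ContinuousOn (fun p : ℝ × ℝ => ((om p.1 * u' p.2 : ℝ) : ℂ)) (Rect a b) :=
    (Complex.continuous_ofReal.comp ((W.c_om.comp continuous_fst).mul
      (W.u_c.comp continuous_snd))).continuousOn
  have hconj := Complex.continuous_conj
  have ck3 : ContinuousOn (fun z => Pool.Agent.Helper52.CK.k3 z z0) (An a b) := by
    unfold Pool.Agent.Helper52.CK.k3
    refine ContinuousOn.div ?_ ?_ fun z hz => mul_ne_zero (h.ne' hz) (h.conj_ne2 hz)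
    · have : Continuous fun z : ℂ => z0 * (1 - (‖z‖ : ℂ) ^ 2) := by fun_prop
      exact this.continuousOn
    · have : Continuous fun z : ℂ => (z - z0) * (1 - z0 * conj z) := by fun_prop
      exact this.continuousOn
  have cka : ContinuousOn (fun z => ka z z0) (An a b) := by
    unfold ka
    refine ContinuousOn.div ?_ ?_ fun z hz => pow_ne_zero 2 (h.ne' hz) <;> fun_prop
  have ckb : ContinuousOn (fun z => kb z z0) (An a b) := by
    unfold kb
    refine ContinuousOn.div ?_ ?_ fun z hz => pow_ne_zero 2 (h.conj_ne2 hz)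
    · have : Continuous fun z : ℂ => conj z * z0 := by fun_prop
      exact this.continuousOn
    · have : Continuous fun z : ℂ => (1 - z0 * conj z) ^ 2 := by fun_prop
      exact this.continuousOn
  have ckp : ContinuousOn (fun z => kp z z0) (An a b) := by
    unfold kp
    refine ContinuousOn.div ?_ ?_ fun z hz => h.ne' hz <;> fun_prop
  have ckq : ContinuousOn (fun z => kq z z0) (An a b) := by
    unfold kq
    refine ContinuousOn.div ?_ ?_ fun z hz => h.conj_ne2 hz
    · have : Continuous fun z : ℂ => 1 + z0 * conj z := by fun_prop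
      exact this.continuousOn
    · have : Continuous fun z : ℂ => 1 - z0 * conj z := by fun_prop
      exact this.continuousOn
  have ck5 : ContinuousOn (fun z => Pool.Agent.Helper52.CK.k5 z z0) (An a b) := by
    unfold Pool.Agent.Helper52.CK.k5
    exact continuousOn_const.mul (ckp.add ckq)
  have cph : ContinuousOn (fun z => 4 * z0 ^ 2 * Pool.Agent.Helper52.CK.kA β z z0) (An a b) := by
    simp only [kA_eq]
    exact continuousOn_const.div ((h.cphi.sub continuousOn_const).pow 2)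
      fun z hz => pow_ne_zero 2 (h.phi_ne hz)
  unfold bodyT
  refine ContinuousOn.add (ContinuousOn.add (co.mul ?_) (co'.mul (contRect ck3)))
    (cu'.mul (contRect ck5))
  refine ContinuousOn.add (ContinuousOn.sub (ContinuousOn.add (ContinuousOn.sub ?_ ?_) ?_) ?_) ?_
  · exact continuousOn_const.mul (contRect cph)
  · exact continuousOn_const
  · exact ((continuousOn_const.mul (contRect ckp)).add
      (continuousOn_const.mul (contRect ckq))).div_const 2
  · exact (continuousOn_const.mul (contRect cka)).add (continuousOn_const.mul (contRect ckb))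
  · exact continuousOn_const.mul ((contRect cka).add (contRect ckb))

theorem c_ET (h : Geo a b β z0) (hL : IsLog β L) (W : Wt2 om om' a b u u') (T : ℂ) :
    ContinuousOn (fun p => (FT T L p : ℂ) * bodyT T om om' u u' β z0 p) (Rect a b) :=
  (Complex.continuous_ofReal.comp_continuousOn (cFT hL h.a_pos T)).mul (c_bodyT h W T)

/-- **the first variation of the functional** -/
theorem dJT_eq (h : Geo a b β z0) (hL : IsLog β L) (W : Wt2 om om' a b u u') (T B : ℂ) :
    ∫ p in Rect a b, om p.1 * u p.2 * (FT T L p * (T * dl β z0 B (ep (-p.1) p.2)).re) =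
      (B * ET T om om' u u' a b β L z0).re := by
  obtain ⟨c1, i1⟩ := G1_int h hL W T B
  obtain ⟨c2, i2⟩ := G2_int h hL W T B
  have c3 := c_ET h hL W T
  have h1 : ∫ p in Rect a b, om p.1 * u p.2 * (FT T L p * (T * dl β z0 B (ep (-p.1) p.2)).re) =
      ∫ p in Rect a b, (G1x T om om' u β L z0 B p + G2θ T om u u' β L z0 B p +
        (B * ((FT T L p : ℂ) * bodyT T om om' u u' β z0 p)).re) := by
    refine setIntegral_congr_fun (measurableSet_rect a b) fun p hp => ?_
    have h2 := dl_bodyT (T := T) (L := L) (om := om) (om' := om') (u := u) (u' := u') (B := B)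
      h hp
    have h3 : (B * ((FT T L p : ℂ) * bodyT T om om' u u' β z0 p)).re =
        FT T L p * (B * bodyT T om om' u u' β z0 p).re := by
      rw [← Complex.re_ofReal_mul]
      congr 1
      ring
    rw [h3]
    exact h2
  have c4 : ContinuousOn (fun p => (B * ((FT T L p : ℂ) *
      bodyT T om om' u u' β z0 p)).re) (Rect a b) :=
    Complex.continuous_re.comp_continuousOn (continuousOn_const.mul c3)
  have i12 : IntegrableOn (fun p => G1x T om om' u β L z0 B p + G2θ T om u u' β L z0 B p)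
      (Rect a b) := (integrableOn_rect c1).add (integrableOn_rect c2)
  rw [h1, integral_add i12 (integrableOn_rect c4),
    integral_add (integrableOn_rect c1) (integrableOn_rect c2), i1, i2]
  rw [zero_add, zero_add]
  have h5 : IntegrableOn (fun p => B * ((FT T L p : ℂ) * bodyT T om om' u u' β z0 p))
      (Rect a b) := integrableOn_rectC (continuousOn_const.mul c3)
  have h6 := integral_re (𝕜 := ℂ) h5
  simp only [RCLike.re_to_complex] at h6
  rw [h6, integral_const_mul]
  rfl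

end

end Pool.Agent.Helper99.CKC
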