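import Pool.Agent.Helper27.CK.NearStmt
import Pool.Agent.Helper68.EKC.GibbsU
import Pool.Agent.Helper99.CKC.PartsC
set_option autoImplicit false
open Complex MeasureTheory Metric Set Filter Topology
open scoped Real ComplexConjugate

/-!
Project CKC: near-maximisers of the localised functional with a complex exponent are nearly
critical.
-/

namespace Pool.Agent.Helper99.CKC

open Pool.Agent.Helper39.Area Pool.Agent.Helper68.EKC Pool.Agent.Helper5.CK Pool.Agent.Helper39.EK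
open Pool.Agent.Helper52.EK hiding Rect
open Pool.Agent.Helper14.CK
open Pool.Agent.Helper28.EK (scale_ExtR scale_N)
open Pool.Agent.Helper27.CK (Wt2 An Geo dl dl_smul hd hasDerivAt_hh ep_mem_An An_ball contRect
  qN cont_ep expand expand_one exp_expand cW MW MW_nonneg exp_neg_lt Ext_zero rect_eqC wt_of)

noncomputable section

/-- uniform expansion of `N` -/
theorem expand0 (hV : Variation) {η : ℝ} (hη : 0 < η) :
    ∃ C t1 : ℝ, 0 < C ∧ 0 < t1 ∧ ∀ β, Ext β → ∀ p : ℂ, η ≤ ‖p‖ → ‖p‖ ≤ 1 - η →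
      ∀ B : ℂ, ‖B‖ ≤ 1 →
      (∀ z : ℂ, η ≤ ‖z‖ → ‖z‖ ≤ 1 - η → η ≤ ‖z - p‖ → ‖dl β p B z‖ ≤ C) ∧
      ∀ t : ℝ, 0 < t → t ≤ t1 → ∃ γ, Ext γ ∧ ∀ z : ℂ, η ≤ ‖z‖ → ‖z‖ ≤ 1 - η → η ≤ ‖z - p‖ →
        ‖N γ z / N β z - 1 - t * dl β p B z‖ ≤ C * t ^ 2 := by
  obtain ⟨C1, t1, hC1, ht1, h1⟩ := expand hV (le_refl (0:ℝ)) hη
  obtain ⟨C0, t0, hC0, ht0, hV⟩ := hV η hη
  by_cases hη1 : η ≤ 1 - η
  swap
  · refine ⟨1, 1, one_pos, one_pos, fun β _ p h1 h2 => ?_⟩
    exact absurd (h1.trans h2) hη1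
  set m : ℝ := 1 - (1 - η) ^ 2 with hm
  have hm0 : 0 < m := by nlinarith
  have hNge : ∀ {β : ℂ → ℂ}, Ext β → ∀ z : ℂ, ‖z‖ ≤ 1 - η → m ≤ ‖N β z‖ := by
    intro β hβ z hz
    have h1 := N_ge hβ (z := z) (by linarith)
    have h2 : ‖z‖ ^ 2 ≤ (1 - η) ^ 2 := by
      have := norm_nonneg z
      gcongr
    linarith
  refine ⟨C1 + C0 / m, t0, by positivity, ht0, fun β hβ p hp hp1 B hB => ⟨?_, ?_⟩⟩
  · intro z hz hz1 hzp
    have := (h1 β hβ p hp hp1 B hB).1 z hz hz1 hzp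
    have h2 : 0 ≤ C0 / m := by positivity
    linarith
  intro t ht htt
  have hτ : ‖(t : ℂ) * B‖ ≤ t := by
    rw [norm_mul, Complex.norm_real, Real.norm_eq_abs, abs_of_pos ht]
    nlinarith
  obtain ⟨γ, hγ, h2⟩ := hV β hβ p hp hp1 (t * B) (hτ.trans htt)
  refine ⟨γ, hγ, fun z hz hz1 hzp => ?_⟩
  have h3 := expand_one hβ hγ hm0 (hNge hβ z hz1) hη hp hp1 hz hz1 hzp (h2 z hz hz1 hzp)
  rw [dl_smul] at h3
  have h4 : ‖(t : ℂ) * B‖ ^ 2 ≤ t ^ 2 := by gcongr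
  refine h3.trans ?_
  calc C0 / m * ‖(t : ℂ) * B‖ ^ 2 ≤ C0 / m * t ^ 2 := by gcongr
    _ ≤ (C1 + C0 / m) * t ^ 2 := by
        have : 0 ≤ C1 * t ^ 2 := by positivity
        linarith

/-- `log (1 + t d + O(t²)) = t d + O(t²)` -/
theorem log_expandC {C t : ℝ} {w d : ℂ} (hC : 0 ≤ C) (hd : ‖d‖ ≤ C)
    (hw : ‖w - 1 - t * d‖ ≤ C * t ^ 2) (ht : |t| ≤ 1) (htC : 4 * (C + 1) * |t| ≤ 1) :
    ‖w - 1‖ ≤ 1 / 2 ∧ ‖Complex.log w - t * d‖ ≤ (C + 4 * C ^ 2) * t ^ 2 := by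
  have ht2 : t ^ 2 = |t| ^ 2 := (sq_abs t).symm
  have ht0 := abs_nonneg t
  have h1 : ‖w - 1‖ ≤ 2 * C * |t| := by
    have : w - 1 = (w - 1 - t * d) + t * d := by ring
    rw [this]
    refine (norm_add_le _ _).trans ?_
    rw [norm_mul, Complex.norm_real, Real.norm_eq_abs]
    have : C * t ^ 2 ≤ C * |t| := by
      rw [ht2]
      nlinarith [mul_nonneg hC ht0]
    nlinarith [mul_le_mul_of_nonneg_left hd ht0]
  have h2 : ‖w - 1‖ ≤ 1 / 2 := by
    refine h1.trans ?_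
    nlinarith
  refine ⟨h2, ?_⟩
  have h3 := Complex.norm_log_one_add_sub_self_le (z := w - 1) (by linarith)
  rw [show (1 : ℂ) + (w - 1) = w by ring] at h3
  have h4 : (1 - ‖w - 1‖)⁻¹ ≤ 2 := by
    rw [inv_le_comm₀ (by linarith) (by norm_num)]
    linarith
  have h5 : (0 : ℝ) ≤ ‖w - 1‖ ^ 2 := by positivity
  have h6 : ‖w - 1‖ ^ 2 ≤ 4 * C ^ 2 * t ^ 2 := by
    rw [ht2]
    calc ‖w - 1‖ ^ 2 ≤ (2 * C * |t|) ^ 2 := by gcongr
      _ = _ := by ring
  calc ‖Complex.log w - t * d‖ = ‖(Complex.log w - (w - 1)) + (w - 1 - t * d)‖ := by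
        congr 1; ring
    _ ≤ _ := (norm_add_le _ _).trans (by nlinarith)

variable {a b : ℝ} {om om' u u' : ℝ → ℝ}

/-- the bound of the logarithm on the window -/
def ML (a : ℝ) : ℝ := -Real.log (1 - Real.exp (-a) ^ 2)

theorem L_le {β L : ℂ → ℂ} (h : Ext β) (hL : IsLog β L) (ha : 0 < a) {p : ℝ × ℝ}
    (hp : p ∈ Rect a b) : ‖L (ep (-p.1) p.2)‖ ≤ ML a := by
  have hz := ep_mem_An hp
  have h1 := hL.goluzin h (An_ball ha hz)
  have h2 : ‖ep (-p.1) p.2‖ ^ 2 ≤ Real.exp (-a) ^ 2 := by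
    have := hz.2
    gcongr
  have h3 := exp_neg_lt ha
  have h4 : 0 < 1 - Real.exp (-a) ^ 2 := by nlinarith [Real.exp_pos (-a)]
  unfold ML
  have h5 := Real.log_le_log h4 (show 1 - Real.exp (-a) ^ 2 ≤ 1 - ‖ep (-p.1) p.2‖ ^ 2 by linarith)
  linarith

theorem FT_pos (T : ℂ) (L : ℂ → ℂ) (p : ℝ × ℝ) : 0 < FT T L p := Real.exp_pos _

theorem FT_le {β L : ℂ → ℂ} (h : Ext β) (hL : IsLog β L) (ha : 0 < a) (T : ℂ) {p : ℝ × ℝ}
    (hp : p ∈ Rect a b) : FT T L p ≤ Real.exp (‖T‖ * ML a) := by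
  unfold FT
  refine Real.exp_le_exp.mpr ?_
  have h1 := L_le h hL ha hp
  calc (T * L (ep (-p.1) p.2)).re ≤ ‖T * L (ep (-p.1) p.2)‖ := Complex.re_le_norm _
    _ = ‖T‖ * ‖L (ep (-p.1) p.2)‖ := norm_mul _ _
    _ ≤ _ := by gcongr

theorem JT_nonneg (W : Wt2 om om' a b u u') (T : ℂ) (L : ℂ → ℂ) : 0 ≤ JT T om u a b L :=
  setIntegral_nonneg (measurableSet_rect a b) fun _ _ =>
    mul_nonneg (mul_nonneg (W.om_nn _) (W.u_nn _)) (FT_pos _ _ _).le

theorem JT_le (W : Wt2 om om' a b u u') (T : ℂ) {β L : ℂ → ℂ} (h : Ext β) (hL : IsLog β L) :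
    JT T om u a b L ≤ Real.exp (‖T‖ * ML a) * MW om u a b := by
  unfold JT MW
  rw [← integral_const_mul]
  refine setIntegral_mono_on (integrableOn_rect ((cW W).mul (cFT hL W.a_pos T)))
    (integrableOn_rect (continuousOn_const.mul (cW W))) (measurableSet_rect a b) ?_
  intro p hp
  have h1 := FT_le h hL W.a_pos T hp
  have h2 : 0 ≤ om p.1 * u p.2 := mul_nonneg (W.om_nn _) (W.u_nn _)
  calc om p.1 * u p.2 * FT T L p ≤ om p.1 * u p.2 * Real.exp (‖T‖ * ML a) := by gcongr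
    _ = _ := by ring

/-- uniform expansion of the functional -/
theorem JT_expand (hV : Variation) (W : Wt2 om om' a b u u') (hb1 : b ≤ 1) (T : ℂ) :
    ∃ C t1 : ℝ, 0 < C ∧ 0 < t1 ∧ ∀ β L, Ext β → IsLog β L → ∀ z0 : ℂ, Real.exp (-1) ≤ ‖z0‖ →
      ‖z0‖ ≤ Real.exp (-2 * b) → ∀ B : ℂ, ‖B‖ ≤ 1 → ∀ t : ℝ, 0 < t → t ≤ t1 →
      ∃ γ L', Ext γ ∧ IsLog γ L' ∧
        |JT T om u a b L' - JT T om u a b L - t * (B * ET T om om' u u' a b β L z0).re| ≤
          C * t ^ 2 := by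
  have ha := W.a_pos
  have hab := W.a_lt
  have hb : 0 < b := ha.trans hab
  have e1 : Real.exp (-2 * b) < Real.exp (-b) := Real.exp_lt_exp.mpr (by linarith)
  have e2 := exp_neg_lt ha
  have e3 : Real.exp (-b) ≤ Real.exp (-a) := Real.exp_le_exp.mpr (by linarith)
  obtain ⟨η, hη⟩ : ∃ η : ℝ, η = min (Real.exp (-1)) (min (Real.exp (-b))
    (min (1 - Real.exp (-a)) (Real.exp (-b) - Real.exp (-2 * b)))) := ⟨_, rfl⟩
  have hη0 : 0 < η := by
    rw [hη]
    refine lt_min (Real.exp_pos _) (lt_min (Real.exp_pos _) (lt_min ?_ ?_)) <;> linarith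
  have hη1 : η ≤ Real.exp (-1) := by rw [hη]; exact min_le_left _ _
  have hη2 : η ≤ Real.exp (-b) := by
    rw [hη]; exact (min_le_right _ _).trans (min_le_left _ _)
  have hη3 : η ≤ 1 - Real.exp (-a) := by
    rw [hη]; exact (min_le_right _ _).trans ((min_le_right _ _).trans (min_le_left _ _))
  have hη4 : η ≤ Real.exp (-b) - Real.exp (-2 * b) := by
    rw [hη]; exact (min_le_right _ _).trans ((min_le_right _ _).trans (min_le_right _ _))
  obtain ⟨C, t0, hC, ht0, hE⟩ := expand0 hV hη0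
  have hM := MW_nonneg W
  obtain ⟨C3, hC3⟩ : ∃ C3 : ℝ, C3 = ‖T‖ * (C + 4 * C ^ 2) + ‖T‖ * C := ⟨_, rfl⟩
  have hC3p : 0 ≤ C3 := by rw [hC3]; positivity
  obtain ⟨C4, hC4⟩ : ∃ C4 : ℝ, C4 = C3 + 4 * C3 ^ 2 := ⟨_, rfl⟩
  have hC4p : 0 ≤ C4 := by rw [hC4]; positivity
  obtain ⟨t1, ht1⟩ : ∃ t1 : ℝ, t1 = min t0 (min 1 (1 / (4 * (C + C3 + 1)))) := ⟨_, rfl⟩
  have ht1p : 0 < t1 := by
    rw [ht1]
    refine lt_min ht0 (lt_min one_pos ?_)
    positivity
  refine ⟨Real.exp (‖T‖ * ML a) * C4 * MW om u a b + 1, t1, by positivity, ht1p, ?_⟩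
  intro β L hβ hL z0 hz0 hz0' B hB t ht htt
  have ht0' : t ≤ t0 := htt.trans (by rw [ht1]; exact min_le_left _ _)
  have ht1' : t ≤ 1 := htt.trans (by
    rw [ht1]; exact (min_le_right _ _).trans (min_le_left _ _))
  have ht2' : t ≤ 1 / (4 * (C + C3 + 1)) := htt.trans (by
    rw [ht1]; exact (min_le_right _ _).trans (min_le_right _ _))
  have ht3 : 4 * (C + C3 + 1) * t ≤ 1 := by
    rw [le_div_iff₀ (by positivity)] at ht2'
    linarith
  have habs : |t| = t := abs_of_pos ht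
  have hg : Geo a b β z0 := ⟨hβ, ha, norm_pos_iff.mp ((Real.exp_pos _).trans_le hz0),
    by linarith, hab.le⟩
  obtain ⟨hdl, h2⟩ := hE β hβ z0 (hη1.trans hz0) (by linarith) B hB
  obtain ⟨γ, hγ, h3⟩ := h2 t ht ht0'
  obtain ⟨L', hL'⟩ := exists_isLog hγ
  refine ⟨γ, L', hγ, hL', ?_⟩
  -- the branch
  have hθ : arg (-z0) ∈ Icc (-π) π := ⟨(Complex.neg_pi_lt_arg _).le, Complex.arg_le_pi _⟩
  have hS : ∀ p ∈ SS a b (arg (-z0)), η ≤ ‖ep (-p.1) p.2‖ ∧ ‖ep (-p.1) p.2‖ ≤ 1 - η ∧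
      η ≤ ‖ep (-p.1) p.2 - z0‖ := by
    rintro p (hp | ⟨hp1, hp2⟩)
    · have hz := ep_mem_An hp
      refine ⟨hη2.trans hz.1, by linarith [hz.2], ?_⟩
      have := norm_sub_norm_le (ep (-p.1) p.2) z0
      linarith [hz.1]
    · have hp3 : p.2 = arg (-z0) := hp2
      have h4 : Real.exp (-1) ≤ Real.exp (-p.1) := Real.exp_le_exp.mpr (by linarith [hp1.2])
      have h5 : Real.exp (-p.1) ≤ Real.exp (-a) := Real.exp_le_exp.mpr (by linarith [hp1.1])
      rw [hp3, far, norm_ep]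
      exact ⟨by linarith, by linarith, by linarith [norm_nonneg z0]⟩
  have hx : ∀ p ∈ SS a b (arg (-z0)),
      ‖N γ (ep (-p.1) p.2) / N β (ep (-p.1) p.2) - 1‖ ≤ 1 / 2 ∧
      ‖Complex.log (N γ (ep (-p.1) p.2) / N β (ep (-p.1) p.2)) -
        t * dl β z0 B (ep (-p.1) p.2)‖ ≤ (C + 4 * C ^ 2) * t ^ 2 := by
    intro p hp
    obtain ⟨s1, s2, s3⟩ := hS p hp
    exact log_expandC hC.le (hdl _ s1 s2 s3) (h3 _ s1 s2 s3) (by rw [habs]; exact ht1')
      (by rw [habs]; nlinarith)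
  have hbr := log_diff hβ hγ hL hL' (SS_pre hab.le hb1 hθ)
    (fun p hp => by
      have := (hS p hp).2.1
      rw [mem_ball, dist_zero_right]
      linarith)
    (fun p hp => (hx p hp).1) (p1 := (1, arg (-z0))) (Or.inr ⟨⟨by linarith, le_rfl⟩, rfl⟩) (by
      rw [norm_ep]
      have := Real.exp_neg_one_lt_half
      exact this.le)
  -- the expansion of the density
  have hF : ∀ p ∈ Rect a b, |FT T L' p - FT T L p -
      t * (FT T L p * (T * dl β z0 B (ep (-p.1) p.2)).re)| ≤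
      Real.exp (‖T‖ * ML a) * C4 * t ^ 2 := by
    intro p hp
    have hp' : p ∈ SS a b (arg (-z0)) := Or.inl hp
    obtain ⟨s1, s2, s3⟩ := hS p hp'
    have h4 := (hx p hp').2
    have h5 := hbr p hp'
    rw [← h5] at h4
    obtain ⟨D, hD⟩ : ∃ D, D = L' (ep (-p.1) p.2) - L (ep (-p.1) p.2) := ⟨_, rfl⟩
    obtain ⟨d, hd⟩ : ∃ d, d = dl β z0 B (ep (-p.1) p.2) := ⟨_, rfl⟩
    have hdn : ‖d‖ ≤ C := by rw [hd]; exact hdl _ s1 s2 s3
    rw [← hD, ← hd] at h4
    have h6 : |(T * D).re - t * (T * d).re| ≤ C3 * t ^ 2 := by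
      have e : (T * D).re - t * (T * d).re = (T * (D - t * d)).re := by
        rw [mul_sub, Complex.sub_re, mul_left_comm, Complex.re_ofReal_mul]
      rw [e]
      calc |(T * (D - t * d)).re| ≤ ‖T * (D - t * d)‖ := Complex.abs_re_le_norm _
        _ = ‖T‖ * ‖D - t * d‖ := norm_mul _ _
        _ ≤ ‖T‖ * ((C + 4 * C ^ 2) * t ^ 2) := by gcongr
        _ ≤ C3 * t ^ 2 := by
            rw [hC3]
            have : 0 ≤ ‖T‖ * C * t ^ 2 := by positivity
            nlinarith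
    have h7 : |(T * d).re| ≤ C3 := by
      calc |(T * d).re| ≤ ‖T * d‖ := Complex.abs_re_le_norm _
        _ = ‖T‖ * ‖d‖ := norm_mul _ _
        _ ≤ ‖T‖ * C := by gcongr
        _ ≤ C3 := by
            rw [hC3]
            have : 0 ≤ ‖T‖ * (C + 4 * C ^ 2) := by positivity
            linarith
    have h8 := exp_expand (C := C3) hC3p h7 h6 (by rw [habs]; exact ht1')
      (by rw [habs]; nlinarith)
    have h9 : FT T L' p = FT T L p * Real.exp (T * D).re := by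
      unfold FT
      rw [← Real.exp_add, ← Complex.add_re, hD]
      congr 2
      ring
    have h10 : FT T L' p - FT T L p - t * (FT T L p * (T * d).re) =
        FT T L p * (Real.exp (T * D).re - 1 - t * (T * d).re) := by
      rw [h9]; ring
    rw [← hd, h10, abs_mul, abs_of_pos (FT_pos T L p)]
    have h11 := FT_le hβ hL ha T hp
    calc FT T L p * |Real.exp (T * D).re - 1 - t * (T * d).re| ≤
          Real.exp (‖T‖ * ML a) * (C4 * t ^ 2) := by
            rw [hC4]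
            gcongr
      _ = _ := by ring
  have h4 := dJT_eq hg hL W T B
  have cdl : ContinuousOn (fun p : ℝ × ℝ => (T * dl β z0 B (ep (-p.1) p.2)).re) (Rect a b) := by
    refine Complex.continuous_re.comp_continuousOn (continuousOn_const.mul
      (contRect (g := dl β z0 B) ?_))
    unfold dl
    have c1 : ContinuousOn (fun z => eps β z0 B / (phi β z - phi β z0) ^ 2) (An a b) :=
      continuousOn_const.div ((hg.cphi.sub continuousOn_const).pow 2)
        fun z hz => pow_ne_zero 2 (hg.phi_ne hz)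
    have c2 := hg.cq
    unfold qN at c2
    exact (((c1.neg.add ((hg.ch B).mul c2)).sub (hg.ch B)).add
      (continuousOn_id.mul (hg.chd B))).sub continuousOn_const
  have cγ := cFT (b := b) hL' ha T
  have cβ := cFT (b := b) hL ha T
  have h5 : JT T om u a b L' - JT T om u a b L - t * (B * ET T om om' u u' a b β L z0).re =
      ∫ p in Rect a b, om p.1 * u p.2 * (FT T L' p - FT T L p -
        t * (FT T L p * (T * dl β z0 B (ep (-p.1) p.2)).re)) := by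
    have i1 : IntegrableOn (fun p : ℝ × ℝ => om p.1 * u p.2 * FT T L' p) (Rect a b) :=
      integrableOn_rect ((cW W).mul cγ)
    have i2 : IntegrableOn (fun p : ℝ × ℝ => om p.1 * u p.2 * FT T L p) (Rect a b) :=
      integrableOn_rect ((cW W).mul cβ)
    have i3 : IntegrableOn (fun p : ℝ × ℝ => om p.1 * u p.2 *
        (FT T L p * (T * dl β z0 B (ep (-p.1) p.2)).re)) (Rect a b) :=
      integrableOn_rect ((cW W).mul (cβ.mul cdl))
    rw [← h4]
    unfold JT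
    rw [← integral_const_mul, ← integral_sub i1 i2, ← integral_sub]
    · refine setIntegral_congr_fun (measurableSet_rect a b) fun p _ => ?_
      ring
    · exact i1.sub i2
    · exact i3.const_mul _
  rw [h5, ← Real.norm_eq_abs]
  have h6 : ‖∫ p in Rect a b, om p.1 * u p.2 * (FT T L' p - FT T L p -
        t * (FT T L p * (T * dl β z0 B (ep (-p.1) p.2)).re))‖ ≤
      ∫ p in Rect a b, (Real.exp (‖T‖ * ML a) * C4 * t ^ 2) * (om p.1 * u p.2) := by
    refine norm_integral_le_of_norm_le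
      (integrableOn_rect (continuousOn_const.mul (cW W))) ?_
    filter_upwards [ae_restrict_mem (measurableSet_rect a b)] with p hp
    have h7 := hF p hp
    have hw : 0 ≤ om p.1 * u p.2 := mul_nonneg (W.om_nn _) (W.u_nn _)
    rw [norm_mul, Real.norm_of_nonneg hw, Real.norm_eq_abs]
    calc om p.1 * u p.2 * |FT T L' p - FT T L p -
        t * (FT T L p * (T * dl β z0 B (ep (-p.1) p.2)).re)| ≤
          om p.1 * u p.2 * (Real.exp (‖T‖ * ML a) * C4 * t ^ 2) := by gcongr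
      _ = _ := by ring
  refine h6.trans ?_
  rw [integral_const_mul]
  have : 0 ≤ t ^ 2 := sq_nonneg t
  unfold MW
  nlinarith

/-- dilation -/
theorem JT_scale (W : Wt2 om om' a b u u') (T : ℂ) {β L : ℂ → ℂ} (h : Ext β) (hL : IsLog β L)
    {δ : ℝ} (hδ : 0 < δ) : ∃ (γ L' : ℂ → ℂ) (R : ℝ), ExtR γ R ∧ IsLog γ L' ∧
      JT T om u a b L - δ < JT T om u a b L' := by
  have ha := W.a_pos
  have hev : ∀ᶠ r : ℝ in 𝓝[<] 1, 0 < r ∧ r < 1 := by
    filter_upwards [self_mem_nhdsWithin, mem_nhdsWithin_of_mem_nhds (lt_mem_nhds one_pos)] with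
      r h1 h2
    exact ⟨h2, h1⟩
  have key : Tendsto (fun r : ℝ => JT T om u a b (fun z => L (r * z))) (𝓝[<] 1)
      (𝓝 (JT T om u a b L)) := by
    unfold JT
    refine tendsto_integral_filter_of_dominated_convergence
      (fun p => Real.exp (‖T‖ * ML a) * (om p.1 * u p.2)) ?_ ?_ ?_ ?_
    · filter_upwards [hev] with r hr
      exact (integrableOn_rect ((cW W).mul
        (cFT (hL.scale h hr.1 hr.2) ha T))).aestronglyMeasurable
    · filter_upwards [hev] with r hr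
      filter_upwards [ae_restrict_mem (measurableSet_rect a b)] with p hp
      have h1 := FT_le (scale_ExtR h hr.1 hr.2).toExt (hL.scale h hr.1 hr.2) ha T hp
      have hw : 0 ≤ om p.1 * u p.2 := mul_nonneg (W.om_nn _) (W.u_nn _)
      rw [Real.norm_of_nonneg (mul_nonneg hw (FT_pos _ _ _).le), mul_comm]
      gcongr
    · exact integrableOn_rect (continuousOn_const.mul (cW W))
    · filter_upwards [ae_restrict_mem (measurableSet_rect a b)] with p hp
      have hz := An_ball ha (ep_mem_An hp)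
      refine Tendsto.const_mul _ ?_
      have h2 : Tendsto (fun r : ℝ => (r : ℂ) * ep (-p.1) p.2) (𝓝[<] 1) (𝓝 (ep (-p.1) p.2)) := by
        have h3 : Continuous fun r : ℝ => (r : ℂ) * ep (-p.1) p.2 := by fun_prop
        have h4 := h3.tendsto 1
        rw [Complex.ofReal_one, one_mul] at h4
        exact h4.mono_left nhdsWithin_le_nhds
      have h5 : ContinuousAt L (ep (-p.1) p.2) := hL.cont.continuousAt (isOpen_ball.mem_nhds hz)
      have h6 := h5.tendsto.comp h2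
      unfold FT
      exact (Real.continuous_exp.tendsto _).comp
        ((Complex.continuous_re.tendsto _).comp (h6.const_mul T))
  have h1 : ∀ᶠ r : ℝ in 𝓝[<] 1, JT T om u a b L - δ <
      JT T om u a b (fun z => L (r * z)) :=
    key.eventually (lt_mem_nhds (by linarith))
  obtain ⟨r, hr1, hr2⟩ := (h1.and hev).exists
  exact ⟨_, _, _, scale_ExtR h hr2.1 hr2.2, hL.scale h hr2.1 hr2.2, hr1⟩

/-- near-maximisers are nearly critical -/
theorem nearT (hV : Variation) (W : Wt2 om om' a b u u') (hb1 : b ≤ 1) (T : ℂ) {η : ℝ}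
    (hη : 0 < η) : ∃ (β L : ℂ → ℂ) (R : ℝ), ExtR β R ∧ IsLog β L ∧
      (∀ γ L' : ℂ → ℂ, Ext γ → IsLog γ L' → (1 - η) * JT T om u a b L' ≤ JT T om u a b L) ∧
      ∀ z0 : ℂ, Real.exp (-1) ≤ ‖z0‖ → ‖z0‖ ≤ Real.exp (-2 * b) →
        ‖ET T om om' u u' a b β L z0‖ ≤ η := by
  obtain ⟨C, t1, hC, ht1, hE⟩ := JT_expand hV W hb1 T
  obtain ⟨A, hA⟩ : ∃ A : Set ℝ, A = {y | ∃ β L, Ext β ∧ IsLog β L ∧ JT T om u a b L = y} :=
    ⟨_, rfl⟩
  have hAb : BddAbove A := by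
    refine ⟨Real.exp (‖T‖ * ML a) * MW om u a b, ?_⟩
    rw [hA]
    rintro y ⟨β, L, hβ, hL, rfl⟩
    exact JT_le W T hβ hL
  obtain ⟨L1, hL1⟩ := exists_isLog Ext_zero
  have hAn : A.Nonempty := ⟨JT T om u a b L1, by rw [hA]; exact ⟨_, L1, Ext_zero, hL1, rfl⟩⟩
  obtain ⟨S, hS⟩ : ∃ S : ℝ, S = sSup A := ⟨_, rfl⟩
  have hSle : ∀ γ L', Ext γ → IsLog γ L' → JT T om u a b L' ≤ S := by
    intro γ L' hγ hL'
    rw [hS]
    exact le_csSup hAb (by rw [hA]; exact ⟨γ, L', hγ, hL', rfl⟩)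
  -- choice of the defect
  obtain ⟨s, hs⟩ : ∃ s : ℝ, s = min t1 (η / (1 + C)) := ⟨_, rfl⟩
  have hs0 : 0 < s := by rw [hs]; exact lt_min ht1 (by positivity)
  have hst : s ≤ t1 := by rw [hs]; exact min_le_left _ _
  have hsη : (1 + C) * s ≤ η := by
    have : s ≤ η / (1 + C) := by rw [hs]; exact min_le_right _ _
    rw [le_div_iff₀ (by positivity)] at this
    linarith
  obtain ⟨δ, hδ⟩ : ∃ δ : ℝ, δ = if 0 < S then min (s ^ 2) (η * S) else s ^ 2 := ⟨_, rfl⟩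
  have hδ0 : 0 < δ := by
    rw [hδ]
    split_ifs with h
    · exact lt_min (by positivity) (by positivity)
    · positivity
  have hδs : δ ≤ s ^ 2 := by
    rw [hδ]
    split_ifs with h
    · exact min_le_left _ _
    · exact le_rfl
  obtain ⟨y, hyA, hy⟩ := exists_lt_of_lt_csSup hAn (show S - δ / 2 < sSup A by
    rw [← hS]; linarith)
  rw [hA] at hyA
  obtain ⟨β₀, L₀, hβ₀, hL₀, rfl⟩ := hyA
  obtain ⟨β, L, R, hβR, hL, hβ⟩ := JT_scale W T hβ₀ hL₀ (δ := δ / 2) (by linarith)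
  have hβE := hβR.toExt
  have hJβ : S - δ < JT T om u a b L := by linarith
  refine ⟨β, L, R, hβR, hL, ?_, ?_⟩
  · intro γ L' hγ hL'
    have h1 := hSle γ L' hγ hL'
    have h0 := JT_nonneg W T L'
    have hb0 := JT_nonneg W T L
    by_cases hη1 : η ≤ 1
    · by_cases hSp : 0 < S
      · have h2 : δ ≤ η * S := by
          rw [hδ, if_pos hSp]
          exact min_le_right _ _
        have h3 : (1 - η) * JT T om u a b L' ≤ (1 - η) * S :=
          mul_le_mul_of_nonneg_left h1 (by linarith)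
        linarith
      · have h2 : JT T om u a b L' = 0 := le_antisymm (h1.trans (not_lt.mp hSp)) h0
        rw [h2, mul_zero]
        exact hb0
    · have h2 : (1 - η) * JT T om u a b L' ≤ 0 :=
        mul_nonpos_of_nonpos_of_nonneg (by linarith [not_le.mp hη1]) h0
      linarith
  · intro z0 h1 h2
    obtain ⟨E, hEd⟩ : ∃ E, E = ET T om om' u u' a b β L z0 := ⟨_, rfl⟩
    rw [← hEd]
    by_cases hE0 : E = 0
    · rw [hE0, norm_zero]
      exact hη.le
    have hEn : 0 < ‖E‖ := norm_pos_iff.mpr hE0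
    have hB1 : ‖conj E / (‖E‖ : ℂ)‖ ≤ 1 := by
      rw [norm_div, RCLike.norm_conj, Complex.norm_real, Real.norm_eq_abs, abs_of_pos hEn,
        div_self hEn.ne']
    obtain ⟨γ, L', hγ, hL', h3⟩ := hE β L hβE hL z0 h1 h2 (conj E / (‖E‖ : ℂ)) hB1 s hs0 hst
    rw [← hEd] at h3
    have h4 : (conj E / (‖E‖ : ℂ) * E).re = ‖E‖ := by
      have e1 : conj E / (‖E‖ : ℂ) * E = ((‖E‖ : ℝ) : ℂ) := by
        have e2 : conj E * E = ((‖E‖ ^ 2 : ℝ) : ℂ) := by
          rw [← Complex.normSq_eq_conj_mul_self, Complex.normSq_eq_norm_sq]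
        have e3 : (‖E‖ : ℂ) ≠ 0 := by exact_mod_cast hEn.ne'
        rw [div_mul_eq_mul_div, e2]
        field_simp
        push_cast
        ring
      rw [e1, Complex.ofReal_re]
    rw [h4] at h3
    have h5 := hSle γ L' hγ hL'
    have h6 := (abs_le.mp h3).1
    have h7 : s * ‖E‖ ≤ δ + C * s ^ 2 := by linarith
    have h8 : s * ‖E‖ ≤ s * ((1 + C) * s) := by nlinarith
    have h9 := le_of_mul_le_mul_left h8 hs0
    exact h9.trans hsη

theorem FC_eq (κ : ℝ) (v : ℂ) (L : ℂ → ℂ) (x θ : ℝ) :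
    Pool.Agent.Helper97.CKC.FC κ v L x θ = FT (Pool.Agent.Helper97.CKC.tt κ v) L (x, θ) := by
  unfold Pool.Agent.Helper97.CKC.FC FT Pool.Agent.Helper97.CKC.tt
  simp only
  congr 1
  rw [show -((κ : ℂ) * conj v) * L (ep (-x) θ) = ((-κ : ℝ) : ℂ) * (conj v * L (ep (-x) θ)) by
    push_cast; ring, Complex.re_ofReal_mul]
  ring

theorem JC_eq (W : Wt2 om om' a b u u') {β L : ℂ → ℂ} (_h : Ext β) (hL : IsLog β L) (κ : ℝ)
    (v : ℂ) : Pool.Agent.Helper97.CKC.JC κ v om u a b L =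
      JT (Pool.Agent.Helper97.CKC.tt κ v) om u a b L := by
  unfold JT
  have hc : ContinuousOn (fun p : ℝ × ℝ => om p.1 * u p.2 *
      FT (Pool.Agent.Helper97.CKC.tt κ v) L p) (Rect a b) :=
    (cW W).mul (cFT hL W.a_pos _)
  rw [rect_eq W.a_lt.le hc]
  unfold Pool.Agent.Helper97.CKC.JC Pool.Agent.Helper52.CK.RR
  simp only [FC_eq]

theorem EC_eq (W : Wt2 om om' a b u u') {β L : ℂ → ℂ} {z0 : ℂ} (h : Geo a b β z0)
    (hL : IsLog β L) (κ : ℝ) (v : ℂ) :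
    Pool.Agent.Helper97.CKC.EC κ v om om' u u' a b β L z0 =
      ET (Pool.Agent.Helper97.CKC.tt κ v) om om' u u' a b β L z0 := by
  unfold ET
  rw [rect_eqC W.a_lt.le (c_ET h hL W _)]
  unfold Pool.Agent.Helper97.CKC.EC bodyT
  simp only [FC_eq]

/-- **NEAR, complex exponents** -/
theorem near_c (hV : Variation) (κ : ℝ) (v : ℂ) : Pool.Agent.Helper97.CKC.NearC κ v := by
  intro om om' w w' a b W _ _ η hη
  have W2 := wt_of W
  obtain ⟨β, L, R, hβ, hL, h1, h2⟩ := nearT hV W2 (W.b1.trans (by norm_num))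
    (Pool.Agent.Helper97.CKC.tt κ v) hη
  refine ⟨β, L, R, hβ, hL, ?_, ?_⟩
  · intro γ L' hγ hL'
    rw [JC_eq W2 hγ hL', JC_eq W2 hβ.toExt hL]
    exact h1 γ L' hγ hL'
  · intro z0 hz hz'
    have hg : Geo a b β z0 := by
      refine ⟨hβ.toExt, W.a0, norm_pos_iff.mp ((Real.exp_pos _).trans_le hz), ?_, W.ab.le⟩
      refine hz'.trans_lt (Real.exp_lt_exp.mpr ?_)
      linarith [W.a0, W.ab]
    rw [EC_eq W2 hg hL]
    exact h2 z0 hz hz'

end

end Pool.Agent.Helper99.CKC
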